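import Pool.Agent.COV.Ram
import Pool.Agent.SS.Disc

/-!
# The discriminant of the field of a point of a cover of the line
-/

set_option autoImplicit false
set_option linter.unusedSectionVars false

open Polynomial NumberField Module Pool.Agent.SS

namespace Pool.Agent.COV

/-- the coefficients of a polynomial in two variables -/
theorem exists_denc (k : Type) [Field k] [NumberField k] (G : k[X][X]) :
    ∃ β : 𝓞 k, β ≠ 0 ∧ ∀ (L : Type) [Field L] [NumberField L] [Algebra k L] (q : Ideal (𝓞 L))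
      (x : L), q.IsPrime → algebraMap (𝓞 k) (𝓞 L) β ∉ q → InL q x →
      ∀ i, InL q (aeval x (G.coeff i)) := by
  classical
  choose β hβ h using fun i => exists_den1 (G.coeff i)
  refine ⟨∏ i ∈ Finset.range (G.natDegree + 1), β i, Finset.prod_ne_zero_iff.2 fun i _ => hβ i,
    fun L _ _ _ q x hq hβq hx i => ?_⟩
  by_cases hi : i ∈ Finset.range (G.natDegree + 1)
  · refine h i L q x hq (fun h' => hβq ?_) hx
    rw [← Finset.mul_prod_erase _ _ hi, map_mul]
    exact Ideal.mul_mem_right _ _ h'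
  · rw [coeff_eq_zero_of_natDegree_lt (by
      rw [Finset.mem_range] at hi
      omega), map_zero]
    exact ⟨1, fun h => hq.ne_top ((Ideal.eq_top_iff_one _).2 h), 0, by simp⟩

section

variable {k : Type} [Field k] [NumberField k] {L : Type} [Field L] [NumberField L] [Algebra k L]
  {r : ℕ}

omit [NumberField k] in
/-- a prime which divides exactly one of the ideals, exactly once -/
theorem exists_elem (fs : Fin r → (𝓞 k)[X]) (A B : Fin r → Fin r → (𝓞 k)[X])
    (d : Fin r → Fin r → 𝓞 k) (hAB : ∀ i j, i ≠ j → A i j * fs i + B i j * fs j = C (d i j))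
    (b : 𝓞 k) (hbl : ∀ i, (fs i).leadingCoeff ∣ b) (hbd : ∀ i j, i ≠ j → d i j ∣ b) (x : L)
    (i : Fin r) (q : Ideal (𝓞 L)) (hq : q.IsMaximal) (hbq : algebraMap (𝓞 k) (𝓞 L) b ∉ q)
    (hz : zf (fs i) x ≤ q) (hz2 : ¬ zf (fs i) x ≤ q ^ 2) :
    (∃ j₀ W : 𝓞 L, j₀ ∈ RefW.denIdealOf x ∧ j₀ ∉ q ∧ W ∈ q ∧ W ∉ q ^ 2 ∧
      (W : L) = aeval x ((fs i).map (algebraMap (𝓞 k) k)) * (j₀ : L) ^ (fs i).natDegree) ∧
      ∀ j, j ≠ i → ¬ zf (fs j) x ≤ q := by
  classical
  have hqp : q.IsPrime := hq.isPrime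
  have hdvd : ∀ c : 𝓞 k, c ∣ b → algebraMap (𝓞 k) (𝓞 L) c ∉ q := by
    rintro c ⟨c', rfl⟩ hc
    exact hbq (by rw [map_mul]; exact Ideal.mul_mem_right _ _ hc)
  -- the denominator
  obtain ⟨j₀, hj₀, hj₀q⟩ : ∃ j₀ ∈ RefW.denIdealOf x, j₀ ∉ q := by
    by_contra h
    push Not at h
    exact hdvd _ (hbl i) (lead_mem (fs i) x q h hz)
  have hex : ∀ j, ∃ w : 𝓞 L, (w : L) = aeval x ((fs j).map (algebraMap (𝓞 k) k)) *
      (j₀ : L) ^ (fs j).natDegree := by
    intro j
    obtain ⟨w, hw⟩ := eval_int (fs j) x _ le_rfl _ (Ideal.pow_mem_pow hj₀ _)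
    exact ⟨w, hw⟩
  choose w hw using hex
  have hwz : ∀ j, w j ∈ zf (fs j) x := fun j =>
    ⟨j₀ ^ (fs j).natDegree, Ideal.pow_mem_pow hj₀ _, hw j⟩
  have hwi : w i ∈ q := hz (hwz i)
  have hwj : ∀ j, j ≠ i → w j ∉ q := by
    intro j hj h
    exact hdvd _ (hbd i j hj.symm) (common_mem (fs i) (fs j) (A i j) (B i j) (d i j)
      (hAB i j hj.symm) x q j₀ hj₀ hj₀q _ _ (w i) (w j) (hw i) (hw j) hwi h)
  have hwi2 : w i ∉ q ^ 2 := by
    intro h
    apply hz2
    intro w' hw'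
    obtain ⟨j', hj', hw''⟩ := hw'
    refine pow_cancel q hq 2 w' (j₀ ^ (fs i).natDegree) (fun h' => hj₀q (hqp.mem_of_pow_mem _ h'))
      ?_
    have h1 : w' * j₀ ^ (fs i).natDegree = w i * j' := by
      apply RingOfIntegers.ext
      change (w' : L) * (j₀ : L) ^ (fs i).natDegree = (w i : L) * (j' : L)
      rw [hw'', hw i]
      ring
    rw [h1]
    exact Ideal.mul_mem_right _ _ h
  exact ⟨⟨j₀, w i, hj₀, hj₀q, hwi, hwi2, hw i⟩, fun j hj h => hwj j hj (h (hwz j))⟩

end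

/-- The discriminant of the field of a point of a cover: for every prime number which divides the
norm of the ideal of the zeros of `f i` exactly once, the prime ideal above it is an `e i`-th power
in the field of the point. -/
theorem disc_ge (k : Type) [Field k] [NumberField k] {r : ℕ} (fs : Fin r → (𝓞 k)[X])
    (hfs : ∀ i, fs i ≠ 0)
    (hco : ∀ i j, i ≠ j → IsCoprime ((fs i).map (algebraMap (𝓞 k) k))
      ((fs j).map (algebraMap (𝓞 k) k))) (e : Fin r → ℕ) (he : ∀ i, 1 ≤ e i) (G : k[X][X])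
    (hG : G.Monic) (μ H a b c : Fin r → k[X][X])
    (hμ : ∀ i, G ∣ μ i ^ e i - C ((fs i).map (algebraMap (𝓞 k) k)) * H i)
    (hone : ∀ i, G ∣ a i * C ((fs i).map (algebraMap (𝓞 k) k)) + b i * μ i + c i * H i - 1) :
    ∃ C₁ : ℝ, 0 ≤ C₁ ∧ ∀ (L K : Type) [Field L] [NumberField L] [Algebra k L] [Field K]
      [NumberField K] [Algebra L K] (x : L) (y : K), val x y G = 0 →
      (finrank L K * (∑ i, (1 - 1 / (e i : ℝ)) *
        Real.log (SS.sq (Ideal.absNorm (zf (fs i) x)))) + finrank L K * Real.log |(discr L : ℝ)| ≤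
        Real.log |(discr K : ℝ)| + finrank L K * C₁) ∧
      ∀ i, C₁ < Real.log (SS.sq (Ideal.absNorm (zf (fs i) x))) → e i ∣ finrank L K := by
  classical
  -- the constants
  have hbez : ∀ i j : Fin r, ∃ (A B : (𝓞 k)[X]) (d : 𝓞 k), d ≠ 0 ∧
      (i ≠ j → A * fs i + B * fs j = C d) := by
    intro i j
    by_cases hij : i = j
    · exact ⟨0, 0, 1, one_ne_zero, fun h => absurd hij h⟩
    · obtain ⟨A, B, d, hd, h⟩ := exists_bezout (fs i) (fs j) (hco i j hij)
      exact ⟨A, B, d, hd, fun _ => h⟩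
  choose A B d hd hAB using hbez
  obtain ⟨βG, hβG, hG'⟩ := exists_denc k G
  choose βμ hβμ hμ' using fun i => exists_den (μ i)
  choose βH hβH hH' using fun i => exists_den (H i)
  choose βa hβa ha' using fun i => exists_den (a i)
  choose βb hβb hb' using fun i => exists_den (b i)
  choose βc hβc hc' using fun i => exists_den (c i)
  set β : 𝓞 k := ((∏ i, (fs i).leadingCoeff) * ∏ i, ∏ j, d i j) *
    (βG * ∏ i, (βμ i * βH i * βa i * βb i * βc i)) with hβ
  have hβ0 : β ≠ 0 := by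
    refine mul_ne_zero (mul_ne_zero
      (Finset.prod_ne_zero_iff.2 fun i _ => leadingCoeff_ne_zero.2 (hfs i))
      (Finset.prod_ne_zero_iff.2 fun i _ => Finset.prod_ne_zero_iff.2 fun j _ => hd i j))
      (mul_ne_zero hβG (Finset.prod_ne_zero_iff.2 fun i _ => ?_))
    exact mul_ne_zero (mul_ne_zero (mul_ne_zero (mul_ne_zero (hβμ i) (hβH i)) (hβa i)) (hβb i))
      (hβc i)
  have hbl : ∀ i, (fs i).leadingCoeff ∣ β := fun i =>
    ((Finset.dvd_prod_of_mem (fun i => (fs i).leadingCoeff) (Finset.mem_univ i)).mul_right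
      _).mul_right _
  have hbd : ∀ i j, i ≠ j → d i j ∣ β := fun i j _ =>
    (((Finset.dvd_prod_of_mem (fun j => d i j) (Finset.mem_univ j)).trans
      (Finset.dvd_prod_of_mem (fun i => ∏ j, d i j) (Finset.mem_univ i))).mul_left _).mul_right _
  have hbG : βG ∣ β := (Dvd.intro _ rfl : βG ∣ βG * _).mul_left _
  have hbi : ∀ i, (βμ i * βH i * βa i * βb i * βc i) ∣ β := fun i =>
    ((Finset.dvd_prod_of_mem (fun i => βμ i * βH i * βa i * βb i * βc i)
      (Finset.mem_univ i)).mul_left _).mul_left _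
  set Δ : ℕ := (Algebra.norm ℤ β).natAbs with hΔ
  have hΔ0 : Δ ≠ 0 := Int.natAbs_ne_zero.2 (Algebra.norm_ne_zero_iff.2 hβ0)
  have hΔ1 : (1 : ℝ) ≤ Δ := by exact_mod_cast Nat.one_le_iff_ne_zero.2 hΔ0
  have hlΔ : 0 ≤ Real.log Δ := Real.log_nonneg hΔ1
  refine ⟨(r + 1) * Real.log Δ, by positivity, ?_⟩
  intro L K _ _ _ _ _ _ x y hy
  set z : Fin r → Ideal (𝓞 L) := fun i => zf (fs i) x with hz
  set P : Fin r → Finset ℕ := fun i =>
    ((Ideal.absNorm (z i)).primeFactors.filter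
      (fun p => (Ideal.absNorm (z i)).factorization p = 1)).filter (fun p => ¬ p ∣ Δ) with hP
  set I : Finset (Σ _ : Fin r, ℕ) := Finset.univ.sigma P with hI
  -- the primes
  have hex : ∀ s : Σ _ : Fin r, ℕ, ∃ (q : Ideal (𝓞 L)) (Q : Ideal (𝓞 K)), s ∈ I →
      s.2.Prime ∧ q.IsMaximal ∧ Ideal.absNorm q = s.2 ∧ z s.1 ≤ q ∧ (∀ j, j ≠ s.1 → ¬ z j ≤ q) ∧
      q.map (algebraMap (𝓞 L) (𝓞 K)) = Q ^ e s.1 := by
    rintro ⟨i, p⟩
    by_cases hs : (⟨i, p⟩ : Σ _ : Fin r, ℕ) ∈ I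
    · rw [hI, Finset.mem_sigma] at hs
      have hs2 := hs.2
      simp only [hP, Finset.mem_filter] at hs2
      obtain ⟨⟨h1, h2⟩, h3⟩ := hs2
      have hp := Nat.mem_primeFactors.1 h1
      obtain ⟨q, hqp, hzq, hqn, hzq2⟩ := exists_prime_of_norm (z i) p hp.1 hp.2.1 (by
        intro h
        have := (hp.1.pow_dvd_iff_le_factorization hp.2.2).1 h
        omega)
      have hq0 : q ≠ ⊥ := by
        rintro rfl
        rw [Ideal.absNorm_bot] at hqn
        exact hp.1.ne_zero hqn.symm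
      have hqm : q.IsMaximal := hqp.isMaximal hq0
      have hβq : algebraMap (𝓞 k) (𝓞 L) β ∉ q := fun h =>
        h3 (bad_dvd k q hqp p hp.1 hqn β h)
      have hdvd : ∀ c : 𝓞 k, c ∣ β → algebraMap (𝓞 k) (𝓞 L) c ∉ q := by
        rintro c ⟨c', hc'⟩ hc
        exact hβq (by rw [hc', map_mul]; exact Ideal.mul_mem_right _ _ hc)
      obtain ⟨⟨j₀, W, hj₀, hj₀q, hW, hW2, hWf⟩, hQ4⟩ := exists_elem fs A B d hAB β hbl hbd x i q
        hqm hβq hzq hzq2
      have hx : InL q x := by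
        obtain ⟨t, ht⟩ := mem_den.1 hj₀
        exact ⟨j₀, hj₀q, t, ht⟩
      have hyK : InK q y := by
        refine InK.of_root hqp (G.map (aeval x : k[X] →ₐ[k] L).toRingHom) (hG.map _) (fun n => ?_)
          y ?_
        · rw [coeff_map]
          exact hG' L q x hqp (hdvd _ hbG) hx n
        · rw [Polynomial.map_map, ← val_eval]
          exact hy
      have h4 := hbi i
      have d1 : βμ i ∣ β := (Dvd.intro (βH i * βa i * βb i * βc i) (by ring)).trans h4
      have d2 : βH i ∣ β := (Dvd.intro (βμ i * βa i * βb i * βc i) (by ring)).trans h4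
      have d3 : βa i ∣ β := (Dvd.intro (βμ i * βH i * βb i * βc i) (by ring)).trans h4
      have d4 : βb i ∣ β := (Dvd.intro (βμ i * βH i * βa i * βc i) (by ring)).trans h4
      have d5 : βc i ∣ β := (Dvd.intro (βμ i * βH i * βa i * βb i) (by ring)).trans h4
      obtain ⟨u₁, hu₁⟩ := hμ i
      obtain ⟨u₂, hu₂⟩ := hone i
      have hrel := congrArg (val x y) hu₁
      have hrel2 := congrArg (val x y) hu₂
      rw [map_mul, hy, zero_mul, map_sub, map_pow, map_mul, val_C, sub_eq_zero] at hrel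
      rw [map_mul (val x y) G, hy, zero_mul, map_sub, map_add, map_add, map_mul, map_mul, map_mul,
        val_C, map_one, sub_eq_zero] at hrel2
      obtain ⟨Q, hQ⟩ := map_pow_of_rel (e i) (he i) q hqm
        (aeval x ((fs i).map (algebraMap (𝓞 k) k))) j₀ W _ hj₀q hW hW2 hWf
        (val x y (μ i)) (val x y (H i)) (val x y (a i)) (val x y (b i)) (val x y (c i))
        (hμ' i L K q x y hqp (hdvd _ d1) hx hyK) (hH' i L K q x y hqp (hdvd _ d2) hx hyK)
        (ha' i L K q x y hqp (hdvd _ d3) hx hyK) (hb' i L K q x y hqp (hdvd _ d4) hx hyK)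
        (hc' i L K q x y hqp (hdvd _ d5) hx hyK) hrel hrel2
      exact ⟨q, Q, fun _ => ⟨hp.1, hqm, hqn, hzq, hQ4, hQ⟩⟩
    · exact ⟨⊥, ⊥, fun h => absurd h hs⟩
  choose q Q hqQ using hex
  have hN0 : 0 < finrank L K := by
    have : FiniteDimensional L K := FiniteDimensional.right ℚ L K
    exact finrank_pos
  -- distinct primes
  have hne : ∀ s ∈ I, ∀ t ∈ I, s ≠ t → q s ≠ q t := by
    intro s hs t ht hst hq
    obtain ⟨-, -, h3, h4, h5, -⟩ := hqQ s hs
    obtain ⟨-, -, h3', h4', h5', -⟩ := hqQ t ht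
    have h8 : s.2 = t.2 := by rw [← h3, ← h3', hq]
    have h9 : s.1 = t.1 := by
      by_contra h9
      exact h5 t.1 (Ne.symm h9) (by rw [hq]; exact h4')
    exact hst (Sigma.ext h9 (heq_of_eq h8))
  -- the different
  have hdiff : ∏ s ∈ I, Q s ^ (e s.1 - 1) ∣ differentIdeal (𝓞 L) (𝓞 K) := by
    refine Finset.prod_dvd_of_coprime ?_ fun s hs => ?_
    · intro s hs t ht hst
      change IsCoprime (Q s ^ (e s.1 - 1)) (Q t ^ (e t.1 - 1))
      refine IsCoprime.pow ?_
      have h1 : IsCoprime (Q s ^ e s.1) (Q t ^ e t.1) := by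
        rw [← (hqQ s hs).2.2.2.2.2, ← (hqQ t ht).2.2.2.2.2, Ideal.isCoprime_iff_sup_eq,
          ← Ideal.map_sup, (hqQ s hs).2.1.coprime_of_ne (hqQ t ht).2.1 (hne s hs t ht hst),
          Ideal.map_top]
      exact (IsCoprime.pow_iff (he s.1) (he t.1)).1 h1
    · obtain ⟨h1, h2, h3, -, -, h8⟩ := hqQ s hs
      have hq0 : q s ≠ ⊥ := by
        intro h
        rw [h, Ideal.absNorm_bot] at h3
        exact h1.ne_zero h3.symm
      have := h2
      exact pow_sub_one_dvd_differentIdeal (𝓞 L) (Q s) (e s.1) hq0 (by rw [h8])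
  have hdisc : (discr K).natAbs = Ideal.absNorm (differentIdeal (𝓞 L) (𝓞 K)) *
      (discr L).natAbs ^ finrank L K :=
    natAbs_discr_eq_absNorm_differentIdeal_mul_natAbs_discr_pow L (𝓞 L) K (𝓞 K)
  have hdiff0 : Ideal.absNorm (differentIdeal (𝓞 L) (𝓞 K)) ≠ 0 := by
    intro h
    rw [h, zero_mul] at hdisc
    exact discr_ne_zero K (Int.natAbs_eq_zero.1 hdisc)
  have hnQ : ∀ s ∈ I, Ideal.absNorm (Q s) ^ e s.1 = s.2 ^ finrank L K := by
    intro s hs
    obtain ⟨-, -, h3, -, -, h8⟩ := hqQ s hs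
    rw [← map_pow, ← h8, Ideal.absNorm_algebraMap,
      ← IsFractionRing.finrank_eq (𝓞 L) L (𝓞 K) K, h3]
  have hQpos : ∀ s ∈ I, 0 < Ideal.absNorm (Q s) := by
    intro s hs
    refine Nat.pos_of_ne_zero fun h => ?_
    have h1 := hnQ s hs
    rw [h, zero_pow (by have := he s.1; omega)] at h1
    exact (pow_pos (hqQ s hs).1.pos _).ne h1
  have hlQ : ∀ s ∈ I, (e s.1 : ℝ) * Real.log (Ideal.absNorm (Q s)) =
      finrank L K * Real.log s.2 := by
    intro s hs
    have h1 : ((Ideal.absNorm (Q s) : ℝ)) ^ e s.1 = (s.2 : ℝ) ^ finrank L K := by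
      exact_mod_cast hnQ s hs
    rw [← Real.log_pow, ← Real.log_pow, h1]
  have hlog1 : ∑ s ∈ I, ((e s.1 - 1 : ℕ) : ℝ) * Real.log (Ideal.absNorm (Q s)) ≤
      Real.log (Ideal.absNorm (differentIdeal (𝓞 L) (𝓞 K))) := by
    have h1 : ∏ s ∈ I, Ideal.absNorm (Q s) ^ (e s.1 - 1) ≤
        Ideal.absNorm (differentIdeal (𝓞 L) (𝓞 K)) := by
      refine Nat.le_of_dvd (Nat.pos_of_ne_zero hdiff0) ?_
      have h2 := map_dvd Ideal.absNorm hdiff
      rw [map_prod] at h2
      simpa only [map_pow] using h2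
    have h2 : ∏ s ∈ I, (Ideal.absNorm (Q s) : ℝ) ^ (e s.1 - 1) ≤
        (Ideal.absNorm (differentIdeal (𝓞 L) (𝓞 K)) : ℝ) := by exact_mod_cast h1
    have h3 : (0 : ℝ) < ∏ s ∈ I, (Ideal.absNorm (Q s) : ℝ) ^ (e s.1 - 1) :=
      Finset.prod_pos fun s hs => pow_pos (by exact_mod_cast hQpos s hs) _
    have h4 := Real.log_le_log h3 h2
    rw [Real.log_prod (fun s hs => (pow_pos (by exact_mod_cast hQpos s hs) _).ne')] at h4
    simpa only [Real.log_pow] using h4
  have hterm : ∀ s ∈ I, ((e s.1 - 1 : ℕ) : ℝ) * Real.log (Ideal.absNorm (Q s)) =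
      finrank L K * ((1 - 1 / (e s.1 : ℝ)) * Real.log s.2) := by
    intro s hs
    have h1 := hlQ s hs
    have h2 : (0 : ℝ) < e s.1 := by exact_mod_cast he s.1
    have h3 : ((e s.1 - 1 : ℕ) : ℝ) = (e s.1 : ℝ) - 1 := by
      rw [Nat.cast_sub (he s.1), Nat.cast_one]
    have h4 : Real.log (Ideal.absNorm (Q s)) = finrank L K * Real.log s.2 / e s.1 := by
      rw [← h1, mul_comm, mul_div_cancel_right₀ _ h2.ne']
    rw [h3, h4]
    field_simp
  have hsum : ∑ s ∈ I, ((e s.1 - 1 : ℕ) : ℝ) * Real.log (Ideal.absNorm (Q s)) =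
      finrank L K * ∑ i, (1 - 1 / (e i : ℝ)) * ∑ p ∈ P i, Real.log p := by
    rw [Finset.sum_congr rfl hterm, ← Finset.mul_sum, hI, Finset.sum_sigma]
    congr 1
    refine Finset.sum_congr rfl fun i _ => ?_
    rw [Finset.mul_sum]
  -- the squarefree parts
  have hsq : ∀ i, Real.log (SS.sq (Ideal.absNorm (z i))) ≤ Real.log Δ + ∑ p ∈ P i, Real.log p := by
    intro i
    have h1 : SS.sq (Ideal.absNorm (z i)) ≤ Δ * ∏ p ∈ P i, p := by
      unfold SS.sq
      rw [← Finset.prod_filter_mul_prod_filter_not ((Ideal.absNorm (z i)).primeFactors.filter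
        (fun p => (Ideal.absNorm (z i)).factorization p = 1)) (fun p => p ∣ Δ)]
      refine Nat.mul_le_mul_right _ (Nat.le_of_dvd (Nat.pos_of_ne_zero hΔ0) ?_)
      refine Finset.prod_primes_dvd Δ (fun p hp => ?_) fun p hp => ?_
      · rw [Finset.mem_filter, Finset.mem_filter] at hp
        exact (Nat.prime_of_mem_primeFactors hp.1.1).prime
      · exact (Finset.mem_filter.1 hp).2
    have h2 := (Nat.cast_le (α := ℝ)).2 h1
    rw [Nat.cast_mul, Nat.cast_prod] at h2
    have h3 : ∀ p ∈ P i, (p : ℝ) ≠ 0 := by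
      intro p hp
      have := (Finset.mem_filter.1 (Finset.mem_filter.1 hp).1).1
      exact_mod_cast (Nat.prime_of_mem_primeFactors this).ne_zero
    have h4 : (0 : ℝ) < SS.sq (Ideal.absNorm (z i)) := by exact_mod_cast SS.sq_pos _
    have h5 := Real.log_le_log h4 h2
    rwa [Real.log_mul (by positivity) (Finset.prod_ne_zero_iff.2 h3), Real.log_prod h3] at h5
  have hα : ∀ i, 0 ≤ 1 - 1 / (e i : ℝ) ∧ 1 - 1 / (e i : ℝ) ≤ 1 := by
    intro i
    have h2 : (1 : ℝ) ≤ e i := by exact_mod_cast he i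
    have h3 : 1 / (e i : ℝ) ≤ 1 := by
      rw [div_le_one (by linarith)]
      exact h2
    have h4 : 0 ≤ 1 / (e i : ℝ) := by positivity
    constructor <;> linarith
  refine ⟨?_, fun i hi => ?_⟩
  · have h1 : Real.log |(discr K : ℝ)| =
        Real.log (Ideal.absNorm (differentIdeal (𝓞 L) (𝓞 K))) +
          finrank L K * Real.log |(discr L : ℝ)| := by
      have e1 : |(discr L : ℝ)| = ((discr L).natAbs : ℝ) := by
        rw [Nat.cast_natAbs, Int.cast_abs]
      have e2 : |(discr K : ℝ)| = ((discr K).natAbs : ℝ) := by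
        rw [Nat.cast_natAbs, Int.cast_abs]
      have e3 : ((discr L).natAbs : ℝ) ≠ 0 := by
        exact_mod_cast Int.natAbs_ne_zero.2 (discr_ne_zero L)
      rw [e1, e2, hdisc]
      push_cast
      rw [Real.log_mul (by exact_mod_cast hdiff0) (pow_ne_zero _ e3), Real.log_pow]
    have h2 : ∑ i, (1 - 1 / (e i : ℝ)) * Real.log (SS.sq (Ideal.absNorm (z i))) ≤
        (r : ℝ) * Real.log Δ + ∑ i, (1 - 1 / (e i : ℝ)) * ∑ p ∈ P i, Real.log p := by
      have h3 : ∀ i ∈ (Finset.univ : Finset (Fin r)),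
          (1 - 1 / (e i : ℝ)) * Real.log (SS.sq (Ideal.absNorm (z i))) ≤
          Real.log Δ + (1 - 1 / (e i : ℝ)) * ∑ p ∈ P i, Real.log p := by
        intro i _
        have h4 := mul_le_mul_of_nonneg_left (hsq i) (hα i).1
        have h5 := mul_le_mul_of_nonneg_right (hα i).2 hlΔ
        rw [mul_add] at h4
        linarith
      refine (Finset.sum_le_sum h3).trans (le_of_eq ?_)
      rw [Finset.sum_add_distrib, Finset.sum_const, Finset.card_univ, Fintype.card_fin,
        nsmul_eq_mul]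
    have hn0 : (0 : ℝ) ≤ finrank L K := Nat.cast_nonneg _
    have h3 := mul_le_mul_of_nonneg_left h2 hn0
    rw [mul_add, ← hsum] at h3
    have h4 : (finrank L K : ℝ) * (r * Real.log Δ) ≤ finrank L K * ((r + 1) * Real.log Δ) := by
      refine mul_le_mul_of_nonneg_left ?_ hn0
      linarith
    rw [h1]
    linarith
  · have h1 : (P i).Nonempty := by
      by_contra h
      rw [Finset.not_nonempty_iff_eq_empty] at h
      have h2 := hsq i
      rw [h, Finset.sum_empty, add_zero] at h2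
      have h3 : Real.log Δ ≤ (r + 1) * Real.log Δ := by
        have : 0 ≤ (r : ℝ) * Real.log Δ := by positivity
        linarith
      exact absurd (hi.trans_le (h2.trans h3)) (lt_irrefl _)
    obtain ⟨p, hp⟩ := h1
    have hs : (⟨i, p⟩ : Σ _ : Fin r, ℕ) ∈ I := by
      rw [hI, Finset.mem_sigma]
      exact ⟨Finset.mem_univ i, hp⟩
    have h2 := hnQ _ hs
    have hpp : p.Prime := (hqQ _ hs).1
    have h3 := congrArg (fun n : ℕ => n.factorization p) h2
    simp only [Nat.factorization_pow, Finsupp.smul_apply, smul_eq_mul, hpp.factorization_self,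
      mul_one] at h3
    exact ⟨_, h3.symm⟩

end Pool.Agent.COV
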