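import Pool.Agent.COV.Disc
import Pool.Agent.OnePt.Simple

/-!
# The discriminant of the field of a point of a cover of the line: simple divisors
-/

set_option autoImplicit false
set_option linter.unusedSectionVars false

open Polynomial NumberField Module Pool.Agent.SS

namespace Pool.Agent.COV

/-- The discriminant of the field of a point of a cover: every prime ideal which divides the ideal
of the zeros of `f i` exactly once is an `e i`-th power in the field of the point. -/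
theorem disc_ge_ideal (k : Type) [Field k] [NumberField k] {r : ℕ} (fs : Fin r → (𝓞 k)[X])
    (hfs : ∀ i, fs i ≠ 0)
    (hco : ∀ i j, i ≠ j → IsCoprime ((fs i).map (algebraMap (𝓞 k) k))
      ((fs j).map (algebraMap (𝓞 k) k))) (e : Fin r → ℕ) (he : ∀ i, 1 ≤ e i) (G : k[X][X])
    (hG : G.Monic) (μ H a b c : Fin r → k[X][X])
    (hμ : ∀ i, G ∣ μ i ^ e i - C ((fs i).map (algebraMap (𝓞 k) k)) * H i)
    (hone : ∀ i, G ∣ a i * C ((fs i).map (algebraMap (𝓞 k) k)) + b i * μ i + c i * H i - 1) :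
    ∃ C₁ : ℝ, 0 ≤ C₁ ∧ ∀ (L K : Type) [Field L] [NumberField L] [Algebra k L] [Field K]
      [NumberField K] [Algebra L K] (x : L) (y : K) (cc : Fin r → Ideal (𝓞 L)),
      (∀ i, OnePt.Simple (zf (fs i) x) (cc i)) → val x y G = 0 →
      (finrank L K * (∑ i, (1 - 1 / (e i : ℝ)) * Real.log (Ideal.absNorm (cc i))) +
        finrank L K * Real.log |(discr L : ℝ)| ≤
        Real.log |(discr K : ℝ)| + finrank L K * (finrank ℚ L * C₁)) ∧
      ∀ i, finrank ℚ L * C₁ < Real.log (Ideal.absNorm (cc i)) → e i ∣ finrank L K := by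
  classical
  -- the constants
  have hbez : ∀ i j : Fin r, ∃ (A B : (𝓞 k)[X]) (d : 𝓞 k), d ≠ 0 ∧
      (i ≠ j → A * fs i + B * fs j = C d) := by
    intro i j
    by_cases hij : i = j
    · exact ⟨0, 0, 1, one_ne_zero, fun h => absurd hij h⟩
    · obtain ⟨A, B, d, hd, h⟩ := exists_bezout (fs i) (fs j) (hco i j hij)
      exact ⟨A, B, d, hd, fun _ => h⟩
  choose A B d hd hAB using hbez
  obtain ⟨βG, hβG, hG'⟩ := exists_denc k G
  choose βμ hβμ hμ' using fun i => exists_den (μ i)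
  choose βH hβH hH' using fun i => exists_den (H i)
  choose βa hβa ha' using fun i => exists_den (a i)
  choose βb hβb hb' using fun i => exists_den (b i)
  choose βc hβc hc' using fun i => exists_den (c i)
  set β : 𝓞 k := ((∏ i, (fs i).leadingCoeff) * ∏ i, ∏ j, d i j) *
    (βG * ∏ i, (βμ i * βH i * βa i * βb i * βc i)) with hβ
  have hβ0 : β ≠ 0 := by
    refine mul_ne_zero (mul_ne_zero
      (Finset.prod_ne_zero_iff.2 fun i _ => leadingCoeff_ne_zero.2 (hfs i))
      (Finset.prod_ne_zero_iff.2 fun i _ => Finset.prod_ne_zero_iff.2 fun j _ => hd i j))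
      (mul_ne_zero hβG (Finset.prod_ne_zero_iff.2 fun i _ => ?_))
    exact mul_ne_zero (mul_ne_zero (mul_ne_zero (mul_ne_zero (hβμ i) (hβH i)) (hβa i)) (hβb i))
      (hβc i)
  have hbl : ∀ i, (fs i).leadingCoeff ∣ β := fun i =>
    ((Finset.dvd_prod_of_mem (fun i => (fs i).leadingCoeff) (Finset.mem_univ i)).mul_right
      _).mul_right _
  have hbd : ∀ i j, i ≠ j → d i j ∣ β := fun i j _ =>
    (((Finset.dvd_prod_of_mem (fun j => d i j) (Finset.mem_univ j)).trans
      (Finset.dvd_prod_of_mem (fun i => ∏ j, d i j) (Finset.mem_univ i))).mul_left _).mul_right _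
  have hbG : βG ∣ β := (Dvd.intro _ rfl : βG ∣ βG * _).mul_left _
  have hbi : ∀ i, (βμ i * βH i * βa i * βb i * βc i) ∣ β := fun i =>
    ((Finset.dvd_prod_of_mem (fun i => βμ i * βH i * βa i * βb i * βc i)
      (Finset.mem_univ i)).mul_left _).mul_left _
  set Δ : ℕ := (Algebra.norm ℤ β).natAbs with hΔ
  have hΔ0 : Δ ≠ 0 := Int.natAbs_ne_zero.2 (Algebra.norm_ne_zero_iff.2 hβ0)
  have hΔ1 : (1 : ℝ) ≤ Δ := by exact_mod_cast Nat.one_le_iff_ne_zero.2 hΔ0
  have hlΔ : 0 ≤ Real.log Δ := Real.log_nonneg hΔ1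
  refine ⟨(r + 1) * Real.log Δ, by positivity, ?_⟩
  intro L K _ _ _ _ _ _ x y cc hcc hy
  have hfk : FiniteDimensional k L := by
    have : IsScalarTower ℚ k L := by infer_instance
    exact FiniteDimensional.right ℚ k L
  set z : Fin r → Ideal (𝓞 L) := fun i => zf (fs i) x with hz
  have hc0 : ∀ i, cc i ≠ 0 := fun i => (hcc i).1.ne_zero
  set P : Fin r → Finset (Ideal (𝓞 L)) := fun i =>
    (UniqueFactorizationMonoid.normalizedFactors (cc i)).toFinset.filter
      (fun q => algebraMap (𝓞 k) (𝓞 L) β ∉ q) with hP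
  set I : Finset (Σ _ : Fin r, Ideal (𝓞 L)) := Finset.univ.sigma P with hI
  have hmem : ∀ i, ∀ q ∈ (UniqueFactorizationMonoid.normalizedFactors (cc i)).toFinset,
      Prime q ∧ q ∣ cc i := by
    intro i q hq
    rw [Multiset.mem_toFinset] at hq
    exact ⟨UniqueFactorizationMonoid.prime_of_normalized_factor q hq,
      UniqueFactorizationMonoid.dvd_of_mem_normalizedFactors hq⟩
  -- the primes
  have hex : ∀ s : Σ _ : Fin r, Ideal (𝓞 L), ∃ Q : Ideal (𝓞 K), s ∈ I →
      Prime s.2 ∧ s.2.IsMaximal ∧ z s.1 ≤ s.2 ∧ (∀ j, j ≠ s.1 → ¬ z j ≤ s.2) ∧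
      s.2.map (algebraMap (𝓞 L) (𝓞 K)) = Q ^ e s.1 := by
    rintro ⟨i, q⟩
    by_cases hs : (⟨i, q⟩ : Σ _ : Fin r, Ideal (𝓞 L)) ∈ I
    · rw [hI, Finset.mem_sigma] at hs
      have hs2 := hs.2
      simp only [hP, Finset.mem_filter] at hs2
      obtain ⟨h1, hβq⟩ := hs2
      obtain ⟨hqpr, hqc⟩ := hmem i q h1
      have hqp : q.IsPrime := Ideal.isPrime_of_prime hqpr
      have hq0 : q ≠ ⊥ := hqpr.ne_zero
      have hqm : q.IsMaximal := hqp.isMaximal hq0
      obtain ⟨hsf, w, hw, hcw⟩ := hcc i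
      have hzq : z i ≤ q := by
        refine Ideal.dvd_iff_le.1 (hqc.trans ?_)
        exact ⟨w, hw⟩
      have hzq2 : ¬ z i ≤ q ^ 2 := by
        intro h
        have h2 : q ^ 2 ∣ cc i * w := by
          rw [← hw]
          exact Ideal.dvd_iff_le.2 h
        have h3 : IsCoprime (q ^ 2) w := (hcw.of_isCoprime_of_dvd_left hqc).pow_left
        have h4 := h3.dvd_of_dvd_mul_right h2
        rw [pow_two] at h4
        exact hqpr.not_isUnit (hsf q h4)
      have hdvd : ∀ c : 𝓞 k, c ∣ β → algebraMap (𝓞 k) (𝓞 L) c ∉ q := by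
        rintro c ⟨c', hc'⟩ hc
        exact hβq (by rw [hc', map_mul]; exact Ideal.mul_mem_right _ _ hc)
      obtain ⟨⟨j₀, W, hj₀, hj₀q, hW, hW2, hWf⟩, hQ4⟩ := exists_elem fs A B d hAB β hbl hbd x i q
        hqm hβq hzq hzq2
      have hx : InL q x := by
        obtain ⟨t, ht⟩ := mem_den.1 hj₀
        exact ⟨j₀, hj₀q, t, ht⟩
      have hyK : InK q y := by
        refine InK.of_root hqp (G.map (aeval x : k[X] →ₐ[k] L).toRingHom) (hG.map _) (fun n => ?_)
          y ?_
        · rw [coeff_map]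
          exact hG' L q x hqp (hdvd _ hbG) hx n
        · rw [Polynomial.map_map, ← val_eval]
          exact hy
      have h4 := hbi i
      have d1 : βμ i ∣ β := (Dvd.intro (βH i * βa i * βb i * βc i) (by ring)).trans h4
      have d2 : βH i ∣ β := (Dvd.intro (βμ i * βa i * βb i * βc i) (by ring)).trans h4
      have d3 : βa i ∣ β := (Dvd.intro (βμ i * βH i * βb i * βc i) (by ring)).trans h4
      have d4 : βb i ∣ β := (Dvd.intro (βμ i * βH i * βa i * βc i) (by ring)).trans h4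
      have d5 : βc i ∣ β := (Dvd.intro (βμ i * βH i * βa i * βb i) (by ring)).trans h4
      obtain ⟨u₁, hu₁⟩ := hμ i
      obtain ⟨u₂, hu₂⟩ := hone i
      have hrel := congrArg (val x y) hu₁
      have hrel2 := congrArg (val x y) hu₂
      rw [map_mul, hy, zero_mul, map_sub, map_pow, map_mul, val_C, sub_eq_zero] at hrel
      rw [map_mul (val x y) G, hy, zero_mul, map_sub, map_add, map_add, map_mul, map_mul, map_mul,
        val_C, map_one, sub_eq_zero] at hrel2
      obtain ⟨Q, hQ⟩ := map_pow_of_rel (e i) (he i) q hqm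
        (aeval x ((fs i).map (algebraMap (𝓞 k) k))) j₀ W _ hj₀q hW hW2 hWf
        (val x y (μ i)) (val x y (H i)) (val x y (a i)) (val x y (b i)) (val x y (c i))
        (hμ' i L K q x y hqp (hdvd _ d1) hx hyK) (hH' i L K q x y hqp (hdvd _ d2) hx hyK)
        (ha' i L K q x y hqp (hdvd _ d3) hx hyK) (hb' i L K q x y hqp (hdvd _ d4) hx hyK)
        (hc' i L K q x y hqp (hdvd _ d5) hx hyK) hrel hrel2
      exact ⟨Q, fun _ => ⟨hqpr, hqm, hzq, hQ4, hQ⟩⟩
    · exact ⟨⊥, fun h => absurd h hs⟩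
  choose Q hqQ using hex
  have hN0 : 0 < finrank L K := by
    have : FiniteDimensional L K := FiniteDimensional.right ℚ L K
    exact finrank_pos
  -- distinct primes
  have hne : ∀ s ∈ I, ∀ t ∈ I, s ≠ t → s.2 ≠ t.2 := by
    intro s hs t ht hst hq
    obtain ⟨-, -, h4, h5, -⟩ := hqQ s hs
    obtain ⟨-, -, h4', h5', -⟩ := hqQ t ht
    have h9 : s.1 = t.1 := by
      by_contra h9
      exact h5 t.1 (Ne.symm h9) (by rw [hq]; exact h4')
    exact hst (Sigma.ext h9 (heq_of_eq hq))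
  -- the different
  have hdiff : ∏ s ∈ I, Q s ^ (e s.1 - 1) ∣ differentIdeal (𝓞 L) (𝓞 K) := by
    refine Finset.prod_dvd_of_coprime ?_ fun s hs => ?_
    · intro s hs t ht hst
      change IsCoprime (Q s ^ (e s.1 - 1)) (Q t ^ (e t.1 - 1))
      refine IsCoprime.pow ?_
      have h1 : IsCoprime (Q s ^ e s.1) (Q t ^ e t.1) := by
        rw [← (hqQ s hs).2.2.2.2, ← (hqQ t ht).2.2.2.2, Ideal.isCoprime_iff_sup_eq,
          ← Ideal.map_sup, (hqQ s hs).2.1.coprime_of_ne (hqQ t ht).2.1 (hne s hs t ht hst),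
          Ideal.map_top]
      exact (IsCoprime.pow_iff (he s.1) (he t.1)).1 h1
    · obtain ⟨h1, h2, -, -, h8⟩ := hqQ s hs
      have := h2
      exact pow_sub_one_dvd_differentIdeal (𝓞 L) (Q s) (e s.1) h1.ne_zero (by rw [h8])
  have hdisc : (discr K).natAbs = Ideal.absNorm (differentIdeal (𝓞 L) (𝓞 K)) *
      (discr L).natAbs ^ finrank L K :=
    natAbs_discr_eq_absNorm_differentIdeal_mul_natAbs_discr_pow L (𝓞 L) K (𝓞 K)
  have hdiff0 : Ideal.absNorm (differentIdeal (𝓞 L) (𝓞 K)) ≠ 0 := by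
    intro h
    rw [h, zero_mul] at hdisc
    exact discr_ne_zero K (Int.natAbs_eq_zero.1 hdisc)
  have hnQ : ∀ s ∈ I, Ideal.absNorm (Q s) ^ e s.1 = Ideal.absNorm s.2 ^ finrank L K := by
    intro s hs
    obtain ⟨-, -, -, -, h8⟩ := hqQ s hs
    rw [← map_pow, ← h8, Ideal.absNorm_algebraMap,
      ← IsFractionRing.finrank_eq (𝓞 L) L (𝓞 K) K]
  have hqpos : ∀ s ∈ I, 0 < Ideal.absNorm s.2 := by
    intro s hs
    refine Nat.pos_of_ne_zero fun h => ?_
    exact (hqQ s hs).1.ne_zero (Ideal.absNorm_eq_zero_iff.1 h)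
  have hQpos : ∀ s ∈ I, 0 < Ideal.absNorm (Q s) := by
    intro s hs
    refine Nat.pos_of_ne_zero fun h => ?_
    have h1 := hnQ s hs
    rw [h, zero_pow (by have := he s.1; omega)] at h1
    exact (pow_pos (hqpos s hs) _).ne h1
  have hlQ : ∀ s ∈ I, (e s.1 : ℝ) * Real.log (Ideal.absNorm (Q s)) =
      finrank L K * Real.log (Ideal.absNorm s.2) := by
    intro s hs
    have h1 : ((Ideal.absNorm (Q s) : ℝ)) ^ e s.1 =
        (Ideal.absNorm s.2 : ℝ) ^ finrank L K := by
      exact_mod_cast hnQ s hs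
    rw [← Real.log_pow, ← Real.log_pow, h1]
  have hlog1 : ∑ s ∈ I, ((e s.1 - 1 : ℕ) : ℝ) * Real.log (Ideal.absNorm (Q s)) ≤
      Real.log (Ideal.absNorm (differentIdeal (𝓞 L) (𝓞 K))) := by
    have h1 : ∏ s ∈ I, Ideal.absNorm (Q s) ^ (e s.1 - 1) ≤
        Ideal.absNorm (differentIdeal (𝓞 L) (𝓞 K)) := by
      refine Nat.le_of_dvd (Nat.pos_of_ne_zero hdiff0) ?_
      have h2 := map_dvd Ideal.absNorm hdiff
      rw [map_prod] at h2
      simpa only [map_pow] using h2
    have h2 : ∏ s ∈ I, (Ideal.absNorm (Q s) : ℝ) ^ (e s.1 - 1) ≤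
        (Ideal.absNorm (differentIdeal (𝓞 L) (𝓞 K)) : ℝ) := by exact_mod_cast h1
    have h3 : (0 : ℝ) < ∏ s ∈ I, (Ideal.absNorm (Q s) : ℝ) ^ (e s.1 - 1) :=
      Finset.prod_pos fun s hs => pow_pos (by exact_mod_cast hQpos s hs) _
    have h4 := Real.log_le_log h3 h2
    rw [Real.log_prod (fun s hs => (pow_pos (by exact_mod_cast hQpos s hs) _).ne')] at h4
    simpa only [Real.log_pow] using h4
  have hterm : ∀ s ∈ I, ((e s.1 - 1 : ℕ) : ℝ) * Real.log (Ideal.absNorm (Q s)) =
      finrank L K * ((1 - 1 / (e s.1 : ℝ)) * Real.log (Ideal.absNorm s.2)) := by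
    intro s hs
    have h1 := hlQ s hs
    have h2 : (0 : ℝ) < e s.1 := by exact_mod_cast he s.1
    have h3 : ((e s.1 - 1 : ℕ) : ℝ) = (e s.1 : ℝ) - 1 := by
      rw [Nat.cast_sub (he s.1), Nat.cast_one]
    have h4 : Real.log (Ideal.absNorm (Q s)) = finrank L K * Real.log (Ideal.absNorm s.2) / e s.1 := by
      rw [← h1, mul_comm, mul_div_cancel_right₀ _ h2.ne']
    rw [h3, h4]
    field_simp
  have hsum : ∑ s ∈ I, ((e s.1 - 1 : ℕ) : ℝ) * Real.log (Ideal.absNorm (Q s)) =
      finrank L K * ∑ i, (1 - 1 / (e i : ℝ)) * ∑ q ∈ P i, Real.log (Ideal.absNorm q) := by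
    rw [Finset.sum_congr rfl hterm, ← Finset.mul_sum, hI, Finset.sum_sigma]
    congr 1
    refine Finset.sum_congr rfl fun i _ => ?_
    rw [Finset.mul_sum]
  -- the bad part
  have hsq : ∀ i, Real.log (Ideal.absNorm (cc i)) ≤
      finrank ℚ L * Real.log Δ + ∑ q ∈ P i, Real.log (Ideal.absNorm q) := by
    intro i
    set S := (UniqueFactorizationMonoid.normalizedFactors (cc i)).toFinset with hS
    have hprod : ∏ q ∈ S, q = cc i := by
      have h1 : (UniqueFactorizationMonoid.normalizedFactors (cc i)).Nodup :=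
        (UniqueFactorizationMonoid.squarefree_iff_nodup_normalizedFactors (hc0 i)).1 (hcc i).1
      rw [Finset.prod, hS, Multiset.toFinset_val, Multiset.dedup_eq_self.2 h1, Multiset.map_id']
      exact associated_iff_eq.1 (UniqueFactorizationMonoid.prod_normalizedFactors (hc0 i))
    have hbad : ∏ q ∈ S.filter (fun q => ¬ algebraMap (𝓞 k) (𝓞 L) β ∉ q), q ∣
        (Ideal.span {β}).map (algebraMap (𝓞 k) (𝓞 L)) := by
      refine Finset.prod_primes_dvd _ (fun q hq => ?_) fun q hq => ?_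
      · exact (hmem i q (Finset.mem_filter.1 hq).1).1
      · rw [Ideal.map_span, Set.image_singleton, Ideal.dvd_span_singleton]
        exact not_not.1 (Finset.mem_filter.1 hq).2
    have hb1 : Ideal.absNorm ((Ideal.span {β}).map (algebraMap (𝓞 k) (𝓞 L))) ≤
        Δ ^ finrank ℚ L := by
      rw [Ideal.absNorm_algebraMap, Ideal.absNorm_span_singleton, ← hΔ,
        ← IsFractionRing.finrank_eq (𝓞 k) k (𝓞 L) L]
      refine Nat.pow_le_pow_right (Nat.pos_of_ne_zero hΔ0) ?_
      have h1 := finrank_mul_finrank ℚ k L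
      have h2 : 0 < finrank ℚ k := finrank_pos
      calc finrank k L = 1 * finrank k L := (one_mul _).symm
        _ ≤ finrank ℚ k * finrank k L := Nat.mul_le_mul_right _ h2
        _ = _ := h1
    have hb0 : Ideal.absNorm ((Ideal.span {β}).map (algebraMap (𝓞 k) (𝓞 L))) ≠ 0 := by
      rw [Ideal.absNorm_algebraMap, Ideal.absNorm_span_singleton, ← hΔ]
      exact pow_ne_zero _ hΔ0
    have h1 : Ideal.absNorm (cc i) ≤ Δ ^ finrank ℚ L * ∏ q ∈ P i, Ideal.absNorm q := by
      rw [← hprod, map_prod, ← Finset.prod_filter_mul_prod_filter_not S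
        (fun q => algebraMap (𝓞 k) (𝓞 L) β ∉ q), mul_comm]
      refine Nat.mul_le_mul_right _ ?_
      rw [← map_prod]
      exact (Nat.le_of_dvd (Nat.pos_of_ne_zero hb0) (map_dvd Ideal.absNorm hbad)).trans hb1
    have h2 := (Nat.cast_le (α := ℝ)).2 h1
    rw [Nat.cast_mul, Nat.cast_prod, Nat.cast_pow] at h2
    have h3 : ∀ q ∈ P i, (Ideal.absNorm q : ℝ) ≠ 0 := by
      intro q hq
      have h5 := (hmem i q (Finset.mem_filter.1 hq).1).1.ne_zero
      have h6 : Ideal.absNorm q ≠ 0 := fun h => h5 (Ideal.absNorm_eq_zero_iff.1 h)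
      exact_mod_cast h6
    have h4 : (0 : ℝ) < Ideal.absNorm (cc i) := by
      have h6 : Ideal.absNorm (cc i) ≠ 0 := fun h => hc0 i (Ideal.absNorm_eq_zero_iff.1 h)
      exact_mod_cast Nat.pos_of_ne_zero h6
    have h5 := Real.log_le_log h4 h2
    rwa [Real.log_mul (by positivity) (Finset.prod_ne_zero_iff.2 h3), Real.log_prod h3,
      Real.log_pow] at h5
  have hα : ∀ i, 0 ≤ 1 - 1 / (e i : ℝ) ∧ 1 - 1 / (e i : ℝ) ≤ 1 := by
    intro i
    have h2 : (1 : ℝ) ≤ e i := by exact_mod_cast he i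
    have h3 : 1 / (e i : ℝ) ≤ 1 := by
      rw [div_le_one (by linarith)]
      exact h2
    have h4 : 0 ≤ 1 / (e i : ℝ) := by positivity
    constructor <;> linarith
  have hl1 : (0 : ℝ) ≤ finrank ℚ L := Nat.cast_nonneg _
  refine ⟨?_, fun i hi => ?_⟩
  · have h1 : Real.log |(discr K : ℝ)| =
        Real.log (Ideal.absNorm (differentIdeal (𝓞 L) (𝓞 K))) +
          finrank L K * Real.log |(discr L : ℝ)| := by
      have e1 : |(discr L : ℝ)| = ((discr L).natAbs : ℝ) := by
        rw [Nat.cast_natAbs, Int.cast_abs]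
      have e2 : |(discr K : ℝ)| = ((discr K).natAbs : ℝ) := by
        rw [Nat.cast_natAbs, Int.cast_abs]
      have e3 : ((discr L).natAbs : ℝ) ≠ 0 := by
        exact_mod_cast Int.natAbs_ne_zero.2 (discr_ne_zero L)
      rw [e1, e2, hdisc]
      push_cast
      rw [Real.log_mul (by exact_mod_cast hdiff0) (pow_ne_zero _ e3), Real.log_pow]
    have h2 : ∑ i, (1 - 1 / (e i : ℝ)) * Real.log (Ideal.absNorm (cc i)) ≤
        (r : ℝ) * (finrank ℚ L * Real.log Δ) +
          ∑ i, (1 - 1 / (e i : ℝ)) * ∑ q ∈ P i, Real.log (Ideal.absNorm q) := by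
      have h3 : ∀ i ∈ (Finset.univ : Finset (Fin r)),
          (1 - 1 / (e i : ℝ)) * Real.log (Ideal.absNorm (cc i)) ≤
          finrank ℚ L * Real.log Δ +
            (1 - 1 / (e i : ℝ)) * ∑ q ∈ P i, Real.log (Ideal.absNorm q) := by
        intro i _
        have h4 := mul_le_mul_of_nonneg_left (hsq i) (hα i).1
        have h5 := mul_le_mul_of_nonneg_right (hα i).2 (mul_nonneg hl1 hlΔ)
        rw [mul_add] at h4
        linarith
      refine (Finset.sum_le_sum h3).trans (le_of_eq ?_)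
      rw [Finset.sum_add_distrib, Finset.sum_const, Finset.card_univ, Fintype.card_fin,
        nsmul_eq_mul]
    have hn0 : (0 : ℝ) ≤ finrank L K := Nat.cast_nonneg _
    have h3 := mul_le_mul_of_nonneg_left h2 hn0
    rw [mul_add, ← hsum] at h3
    have h4 : (finrank L K : ℝ) * (r * (finrank ℚ L * Real.log Δ)) ≤
        finrank L K * (finrank ℚ L * ((r + 1) * Real.log Δ)) := by
      refine mul_le_mul_of_nonneg_left ?_ hn0
      have : 0 ≤ (finrank ℚ L : ℝ) * Real.log Δ := mul_nonneg hl1 hlΔ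
      linarith
    rw [h1]
    linarith
  · have h1 : (P i).Nonempty := by
      by_contra h
      rw [Finset.not_nonempty_iff_eq_empty] at h
      have h2 := hsq i
      rw [h, Finset.sum_empty, add_zero] at h2
      have h3 : (finrank ℚ L : ℝ) * Real.log Δ ≤ finrank ℚ L * ((r + 1) * Real.log Δ) := by
        refine mul_le_mul_of_nonneg_left ?_ hl1
        have : 0 ≤ (r : ℝ) * Real.log Δ := by positivity
        linarith
      exact absurd (hi.trans_le (h2.trans h3)) (lt_irrefl _)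
    obtain ⟨q, hq⟩ := h1
    have hs : (⟨i, q⟩ : Σ _ : Fin r, Ideal (𝓞 L)) ∈ I := by
      rw [hI, Finset.mem_sigma]
      exact ⟨Finset.mem_univ i, hq⟩
    obtain ⟨hqpr, -, -, -, h8⟩ := hqQ _ hs
    have hrel : q ^ finrank L K = (Ideal.relNorm (𝓞 L) (Q ⟨i, q⟩)) ^ e i := by
      rw [← map_pow, IsFractionRing.finrank_eq (𝓞 L) L (𝓞 K) K, ← Ideal.relNorm_algebraMap (𝓞 K) q]
      exact congrArg (Ideal.relNorm (𝓞 L)) h8
    have h3 := congrArg (fun J => Multiset.count q
      (UniqueFactorizationMonoid.normalizedFactors J)) hrel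
    simp only [UniqueFactorizationMonoid.normalizedFactors_pow, Multiset.count_nsmul] at h3
    rw [UniqueFactorizationMonoid.normalizedFactors_irreducible hqpr.irreducible, normalize_eq,
      Multiset.count_singleton_self, mul_one] at h3
    exact ⟨_, h3⟩

end Pool.Agent.COV
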