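import Pool.Agent.COV.Viol
import Pool.Agent.SFD.Two
import Pool.Agent.HD.LowerProj

/-!
# Covers of the line: the height inequality for almost all points
-/

set_option autoImplicit false

open Polynomial NumberField IntermediateField Module

namespace Pool.Agent.COV

/-- **The number of the points with a small discriminant or with a small degree.** -/
theorem viol_of (k : Type) [Field k] [NumberField k] {r : ℕ} (f : Fin r → k[X])
    (hirr : ∀ i, Irreducible (f i)) (hass : ∀ i j, i ≠ j → ¬ Associated (f i) (f j)) (m : ℕ)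
    (hm : 1 ≤ m) (hdeg : ∀ i, (f i).natDegree ≤ 2 * m + 1) (e : Fin r → ℕ) (he : ∀ i, 1 ≤ e i)
    (G : k[X][X]) (hG : G.Monic) (μ H : Fin r → k[X][X])
    (hμ : ∀ i, G ∣ μ i ^ e i - C (f i) * H i)
    (hone : ∀ i, Ideal.span {C (f i), μ i, H i, G} = ⊤)
    (A' : ℝ) (hA' : SFD.DiscLow k m A') (A B : ℝ)
    (hA : A < ∑ i, (1 - 1 / (e i : ℝ)) * ((f i).natDegree : ℝ) + A') :
    ∃ C δ : ℝ, 0 < δ ∧ ∀ T : ℝ, 0 ≤ T →
      {P ∈ Pts k G m T | HD.logDiscr P ≤ A * AA.height P.1 + B ∨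
        ¬ ∀ i, m * e i ∣ finrank k (IntermediateField.adjoin k {P.1, P.2})}.Finite ∧
      ({P ∈ Pts k G m T | HD.logDiscr P ≤ A * AA.height P.1 + B ∨
        ¬ ∀ i, m * e i ∣ finrank k (IntermediateField.adjoin k {P.1, P.2})}.ncard : ℝ) ≤
        C * Real.exp ((m + 1 - δ) * (finrank ℚ k * m) * T) := by
  classical
  choose β F hβ hF using fun i => SFD.exists_int (f i)
  have hβk : ∀ i, (β i : k) ≠ 0 := fun i h => hβ i (RingOfIntegers.coe_eq_zero_iff.1 h)
  have hunit : ∀ i, IsUnit (C (β i : k) : k[X]) := fun i =>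
    isUnit_C.2 (isUnit_iff_ne_zero.2 (hβk i))
  have hassF : ∀ i, Associated (f i) ((F i).map (algebraMap (𝓞 k) k)) := fun i => by
    rw [hF i]
    exact (associated_isUnit_mul_left_iff (hunit i)).2 (Associated.refl _) |>.symm
  have hFi : ∀ i, Irreducible ((F i).map (algebraMap (𝓞 k) k)) := fun i =>
    (hassF i).irreducible (hirr i)
  have hnat : ∀ i, (F i).natDegree = (f i).natDegree := fun i => by
    rw [← natDegree_map_eq_of_injective RingOfIntegers.coe_injective (F i), hF i,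
      natDegree_C_mul (hβk i)]
  have hrep : ∀ i, ∃ a b c : k[X][X], G ∣ a * C (f i) + b * μ i + c * H i - 1 := by
    intro i
    have h1 := (Ideal.eq_top_iff_one _).1 (hone i)
    rw [Ideal.mem_span_insert] at h1
    obtain ⟨a, z, hz, h1⟩ := h1
    rw [Ideal.mem_span_insert] at hz
    obtain ⟨b, z', hz', h2⟩ := hz
    rw [Ideal.mem_span_insert] at hz'
    obtain ⟨c, z'', hz'', h3⟩ := hz'
    rw [Ideal.mem_span_singleton'] at hz''
    obtain ⟨d, h4⟩ := hz''
    refine ⟨a, b, c, -d, ?_⟩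
    rw [h1, h2, h3, ← h4]
    ring
  choose a b c habc using hrep
  have hCC : ∀ i, (C (C (β i : k)⁻¹) : k[X][X]) * C (C (β i : k)) = 1 := fun i => by
    rw [← C_mul, ← C_mul, inv_mul_cancel₀ (hβk i), C_1, C_1]
  have h := viol_fac k F hFi (fun i j hij => ?_) m hm (fun i => by rw [hnat]; exact hdeg i) e he G
    hG μ (fun i => C (C (β i : k)⁻¹) * H i) (fun i => C (C (β i : k)⁻¹) * a i) b
    (fun i => C (C (β i : k)) * c i) (fun i => ?_) (fun i => ?_) A' hA' A B (by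
      simp only [hnat]
      exact hA)
  · exact h
  · rw [(hFi i).coprime_iff_not_dvd]
    intro hdvd
    have h1 : Associated ((F i).map (algebraMap (𝓞 k) k)) ((F j).map (algebraMap (𝓞 k) k)) :=
      (hFi i).associated_of_dvd (hFi j) hdvd
    exact hass i j hij ((hassF i).trans (h1.trans (hassF j).symm))
  · rw [hF i, C_mul]
    have e1 : μ i ^ e i - C (C (β i : k)) * C (f i) * (C (C (β i : k)⁻¹) * H i) =
        μ i ^ e i - (C (C (β i : k)⁻¹) * C (C (β i : k))) * (C (f i) * H i) := by ring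
    rw [e1, hCC, one_mul]
    exact hμ i
  · rw [hF i, C_mul]
    have e1 : C (C (β i : k)⁻¹) * a i * (C (C (β i : k)) * C (f i)) + b i * μ i +
        C (C (β i : k)) * c i * (C (C (β i : k)⁻¹) * H i) - 1 =
        (C (C (β i : k)⁻¹) * C (C (β i : k))) * (a i * C (f i)) + b i * μ i +
        (C (C (β i : k)⁻¹) * C (C (β i : k))) * (c i * H i) - 1 := by ring
    rw [e1, hCC, one_mul, one_mul]
    exact habc i

/-- **The height inequality for almost all points.** -/
theorem q1_of (k : Type) [Field k] [NumberField k] {t : ℕ} (p : Fin t → ℕ)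
    [∀ t, Fact (p t).Prime] (hp : Function.Injective p) (g : k[X]) (hg : Squarefree g) (q : ℕ)
    (hq : q = g.natDegree ∨ q = g.natDegree + 1) {r : ℕ} (f : Fin r → k[X])
    (hirr : ∀ i, Irreducible (f i)) (hass : ∀ i j, i ≠ j → ¬ Associated (f i) (f j)) (m : ℕ)
    (hm : 1 ≤ m) (hdeg : ∀ i, (f i).natDegree ≤ 2 * m + 1) (e : Fin r → ℕ) (he : ∀ i, 1 ≤ e i)
    (G : k[X][X]) (hG : G.Monic) (μ H : Fin r → k[X][X])
    (hμ : ∀ i, G ∣ μ i ^ e i - C (f i) * H i)
    (hone : ∀ i, Ideal.span {C (f i), μ i, H i, G} = ⊤)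
    (A' : ℝ) (hA' : SFD.DiscLow k m A') (A ε : ℝ)
    (hA : A - ε < ∑ i, (1 - 1 / (e i : ℝ)) * ((f i).natDegree : ℝ) + A') :
    ∃ C δ : ℝ, 0 < δ ∧ ∀ T : ℝ, 0 ≤ T →
      {P ∈ Pts k G m T | aeval P.1 g ≠ 0 ∧ HD.logDiscr P + ε * AA.height P.1 <
          AA.proximity p g q P.1 + A * AA.height P.1}.Finite ∧
      ({P ∈ Pts k G m T | aeval P.1 g ≠ 0 ∧ HD.logDiscr P + ε * AA.height P.1 <
          AA.proximity p g q P.1 + A * AA.height P.1}.ncard : ℝ) ≤
        C * Real.exp ((m + 1 - δ) * (finrank ℚ k * m) * T) := by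
  classical
  set d := finrank ℚ k with hd
  set M : ℝ := ∑ i, (1 - 1 / (e i : ℝ)) * ((f i).natDegree : ℝ) with hM
  set gap : ℝ := M + A' - (A - ε) with hgap
  have hgap0 : 0 < gap := by rw [hgap]; linarith
  set α : ℝ := min 1 (gap / 2) with hα
  have hα0 : 0 < α := lt_min one_pos (half_pos hgap0)
  have hα1 : α ≤ 1 := min_le_left _ _
  have hαg : α ≤ gap / 2 := min_le_right _ _
  obtain ⟨C₁, δ₁, hδ₁, h₁⟩ := viol_of k f hirr hass m hm hdeg e he G hG μ H hμ hone A' hA'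
    (A - ε + α) 0 (by rw [hgap] at hαg; linarith)
  obtain ⟨C₂, h₂⟩ := TW.near_all_one k p hp g hg q hq m hm α (α / 2) hα0.le (by linarith)
    (half_pos hα0)
  refine ⟨|C₁| + |C₂| * G.natDegree, min δ₁ (α / 2), lt_min hδ₁ (half_pos hα0), fun T hT => ?_⟩
  obtain ⟨f1, c1⟩ := h₁ T hT
  set B : ℝ := Real.exp (d * m * T) with hB
  have hB1 : 1 ≤ B := Real.one_le_exp (by positivity)
  have hB0 : 0 < B := lt_of_lt_of_le one_pos hB1
  obtain ⟨f2, c2⟩ := h₂ B hB1
  set U := {x : AlgebraicClosure k | finrank k (IntermediateField.adjoin k {x}) = m ∧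
      AA.relHeight x ≤ B ∧ aeval x g ≠ 0 ∧ α * AA.height x ≤ AA.proximity p g q x} with hU
  set V := {P ∈ Pts k G m T | aeval P.1 g ≠ 0 ∧ HD.logDiscr P + ε * AA.height P.1 <
          AA.proximity p g q P.1 + A * AA.height P.1} with hV
  set V₁ := {P ∈ Pts k G m T | HD.logDiscr P ≤ (A - ε + α) * AA.height P.1 + 0 ∨
        ¬ ∀ i, m * e i ∣ finrank k (IntermediateField.adjoin k {P.1, P.2})} with hV₁
  set V₂ := {P ∈ Pts k G m T | P.1 ∈ U} with hV₂
  obtain ⟨f3, c3⟩ := pts_fibre k G hG m T V₂ (fun P hP => hP.1) U f2 fun P hP => hP.2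
  have hsub : V ⊆ V₁ ∪ V₂ := by
    rintro P ⟨hP, hgx, hlt⟩
    by_cases hprox : α * AA.height P.1 ≤ AA.proximity p g q P.1
    · right
      refine ⟨hP, hP.2.1, ?_, hgx, hprox⟩
      rw [SFD.relHeight_eq P.1 m hP.2.1]
      exact Real.exp_le_exp.2 (mul_le_mul_of_nonneg_left hP.2.2 (by positivity))
    · left
      refine ⟨hP, Or.inl ?_⟩
      rw [not_le] at hprox
      have : (A - ε + α) * AA.height P.1 =
        A * AA.height P.1 - ε * AA.height P.1 + α * AA.height P.1 := by ring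
      linarith
  refine ⟨(f1.union f3).subset hsub, ?_⟩
  have g1 : (V.ncard : ℝ) ≤ V₁.ncard + V₂.ncard := by
    exact_mod_cast (Set.ncard_le_ncard hsub (f1.union f3)).trans (Set.ncard_union_le _ _)
  set δ : ℝ := min δ₁ (α / 2) with hδ
  have hexp : Real.exp ((m + 1 - δ) * (d * m) * T) = B ^ ((m : ℝ) + 1 - δ) := by
    rw [hB, ← Real.exp_mul]
    congr 1
    ring
  have g2 : (V₁.ncard : ℝ) ≤ |C₁| * Real.exp ((m + 1 - δ) * (d * m) * T) := by
    have e1 : Real.exp ((m + 1 - δ₁) * (d * m) * T) ≤ Real.exp ((m + 1 - δ) * (d * m) * T) := by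
      refine Real.exp_le_exp.2 ?_
      have : δ ≤ δ₁ := min_le_left _ _
      refine mul_le_mul_of_nonneg_right (mul_le_mul_of_nonneg_right (by linarith)
        (by positivity)) hT
    calc (V₁.ncard : ℝ) ≤ C₁ * Real.exp ((m + 1 - δ₁) * (d * m) * T) := c1
      _ ≤ |C₁| * Real.exp ((m + 1 - δ₁) * (d * m) * T) :=
          mul_le_mul_of_nonneg_right (le_abs_self _) (Real.exp_pos _).le
      _ ≤ _ := mul_le_mul_of_nonneg_left e1 (abs_nonneg _)
  have g3 : (U.ncard : ℝ) ≤ |C₂| * Real.exp ((m + 1 - δ) * (d * m) * T) := by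
    rw [hexp]
    have e1 : B ^ ((m : ℝ) + 1 - α + α / 2) ≤ B ^ ((m : ℝ) + 1 - δ) := by
      refine Real.rpow_le_rpow_of_exponent_le hB1 ?_
      have : δ ≤ α / 2 := min_le_right _ _
      linarith
    calc (U.ncard : ℝ) ≤ C₂ * B ^ ((m : ℝ) + 1 - α + α / 2) := c2
      _ ≤ |C₂| * B ^ ((m : ℝ) + 1 - α + α / 2) :=
          mul_le_mul_of_nonneg_right (le_abs_self _) (by positivity)
      _ ≤ _ := mul_le_mul_of_nonneg_left e1 (abs_nonneg _)
  calc (V.ncard : ℝ) ≤ V₁.ncard + V₂.ncard := g1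
    _ ≤ |C₁| * Real.exp ((m + 1 - δ) * (d * m) * T) +
        (|C₂| * Real.exp ((m + 1 - δ) * (d * m) * T)) * G.natDegree :=
        add_le_add g2 (c3.trans (mul_le_mul_of_nonneg_right g3 (Nat.cast_nonneg _)))
    _ = _ := by ring

/-- **The number of the points.** -/
theorem lower (k : Type) [Field k] [NumberField k] (G : k[X][X]) (hG : G.Monic)
    (hG1 : 1 ≤ G.natDegree) (m : ℕ) (hm : 1 ≤ m) :
    ∃ c T₀ : ℝ, 0 < c ∧ ∀ T : ℝ, T₀ ≤ T → (Pts k G m T).Finite ∧
      c * Real.exp ((m + 1) * (finrank ℚ k * m) * T) ≤ ((Pts k G m T).ncard : ℝ) := by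
  classical
  obtain ⟨c, B₀, hc, h⟩ := HD.lower_all k m hm
  set d := finrank ℚ k with hd
  have hd0 : (0 : ℝ) < d := Nat.cast_pos.2 finrank_pos
  have hm0 : (0 : ℝ) < m := by exact_mod_cast hm
  refine ⟨c, max 0 (Real.log (max 1 B₀) / (d * m)), hc, fun T hT => ?_⟩
  have hT0 : 0 ≤ T := (le_max_left _ _).trans hT
  have hT1 : Real.log (max 1 B₀) / (d * m) ≤ T := (le_max_right _ _).trans hT
  have hB : B₀ ≤ Real.exp (d * m * T) := by
    have h1 : (0 : ℝ) < max 1 B₀ := lt_of_lt_of_le one_pos (le_max_left _ _)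
    rw [div_le_iff₀ (by positivity)] at hT1
    calc B₀ ≤ max 1 B₀ := le_max_right _ _
      _ = Real.exp (Real.log (max 1 B₀)) := (Real.exp_log h1).symm
      _ ≤ _ := Real.exp_le_exp.2 (by linarith)
  obtain ⟨S, hS, hS'⟩ := h _ hB
  have hfU := SFD.bounded_finite k m hm T hT0
  obtain ⟨fV, -⟩ := pts_fibre k G hG m T (Pts k G m T) subset_rfl _ hfU
    fun P hP => ⟨hP.2.1, hP.2.2⟩
  refine ⟨fV, ?_⟩
  -- a point above every abscissa
  have hex : ∀ x : AlgebraicClosure k, ∃ y : AlgebraicClosure k,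
      (G.map (mapRingHom (algebraMap k (AlgebraicClosure k)))).evalEval x y = 0 := by
    intro x
    set g : (AlgebraicClosure k)[X] :=
      G.map (aeval x : k[X] →ₐ[k] AlgebraicClosure k).toRingHom with hg
    obtain ⟨y, hy⟩ := IsAlgClosed.exists_root g (by
      rw [hg, hG.degree_map]
      intro h0
      have := natDegree_eq_zero_iff_degree_le_zero.2 h0.le
      omega)
    refine ⟨y, ?_⟩
    rw [evalEval_eq, eval₂_eq_eval_map]
    exact hy
  choose y hy using hex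
  have hmaps : ∀ x ∈ (S : Set (AlgebraicClosure k)), (x, y x) ∈ Pts k G m T := by
    intro x hx
    obtain ⟨h1, h2⟩ := hS' x hx
    refine ⟨hy x, h1, ?_⟩
    rw [SFD.relHeight_eq x m h1, Real.exp_le_exp] at h2
    exact le_of_mul_le_mul_left h2 (by positivity)
  have h1 := Set.ncard_le_ncard_of_injOn (fun x => (x, y x)) hmaps
    (fun x _ x' _ h => congrArg Prod.fst h) fV
  rw [Set.ncard_coe_finset] at h1
  calc c * Real.exp ((m + 1) * (d * m) * T) = c * Real.exp (d * m * T) ^ (m + 1) := by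
        rw [← Real.exp_nat_mul]
        congr 2
        push_cast
        ring
    _ ≤ (S.card : ℝ) := hS
    _ ≤ _ := by exact_mod_cast h1

end Pool.Agent.COV
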