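import Pool.Agent.COV.ViolI
import Pool.Agent.COV.Gen

/-!
# Covers of the line: the height inequality for almost all points
-/

set_option autoImplicit false

open Polynomial NumberField IntermediateField Module

namespace Pool.Agent.COV

/-- **The number of the points with a small discriminant or with a small degree.** -/
theorem viol_all (k : Type) [Field k] [NumberField k] {r : ℕ} (f : Fin r → k[X])
    (hirr : ∀ i, Irreducible (f i)) (hass : ∀ i j, i ≠ j → ¬ Associated (f i) (f j)) (m : ℕ)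
    (hm : 1 ≤ m) (hdeg : ∀ i, (f i).natDegree ≤ 2 * m + 1 ∨ (m = 1 ∧ (f i).natDegree ≤ 4))
    (e : Fin r → ℕ) (he : ∀ i, 1 ≤ e i)
    (G : k[X][X]) (hG : G.Monic) (μ H : Fin r → k[X][X])
    (hμ : ∀ i, G ∣ μ i ^ e i - C (f i) * H i)
    (hone : ∀ i, Ideal.span {C (f i), μ i, H i, G} = ⊤)
    (A' : ℝ)
    (hA' : A' = 0 ∨ (0 < A' ∧ A' * HD.ex (finrank ℚ k) m < m - 1) ∨ (m = 2 ∧ A' < 2)) (A B : ℝ)
    (hA : A < ∑ i, (1 - 1 / (e i : ℝ)) * ((f i).natDegree : ℝ) + A') :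
    ∃ C δ : ℝ, 0 < δ ∧ ∀ T : ℝ, 0 ≤ T →
      {P ∈ Pts k G m T | HD.logDiscr P ≤ A * AA.height P.1 + B ∨
        ¬ ∀ i, m * e i ∣ finrank k (IntermediateField.adjoin k {P.1, P.2})}.Finite ∧
      ({P ∈ Pts k G m T | HD.logDiscr P ≤ A * AA.height P.1 + B ∨
        ¬ ∀ i, m * e i ∣ finrank k (IntermediateField.adjoin k {P.1, P.2})}.ncard : ℝ) ≤
        C * Real.exp ((m + 1 - δ) * (finrank ℚ k * m) * T) := by
  classical
  choose β F hβ hF using fun i => SFD.exists_int (f i)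
  have hβk : ∀ i, (β i : k) ≠ 0 := fun i h => hβ i (RingOfIntegers.coe_eq_zero_iff.1 h)
  have hunit : ∀ i, IsUnit (C (β i : k) : k[X]) := fun i =>
    isUnit_C.2 (isUnit_iff_ne_zero.2 (hβk i))
  have hassF : ∀ i, Associated (f i) ((F i).map (algebraMap (𝓞 k) k)) := fun i => by
    rw [hF i]
    exact (associated_isUnit_mul_left_iff (hunit i)).2 (Associated.refl _) |>.symm
  have hFi : ∀ i, Irreducible ((F i).map (algebraMap (𝓞 k) k)) := fun i =>
    (hassF i).irreducible (hirr i)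
  have hnat : ∀ i, (F i).natDegree = (f i).natDegree := fun i => by
    rw [← natDegree_map_eq_of_injective RingOfIntegers.coe_injective (F i), hF i,
      natDegree_C_mul (hβk i)]
  have hrep : ∀ i, ∃ a b c : k[X][X], G ∣ a * C (f i) + b * μ i + c * H i - 1 := by
    intro i
    have h1 := (Ideal.eq_top_iff_one _).1 (hone i)
    rw [Ideal.mem_span_insert] at h1
    obtain ⟨a, z, hz, h1⟩ := h1
    rw [Ideal.mem_span_insert] at hz
    obtain ⟨b, z', hz', h2⟩ := hz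
    rw [Ideal.mem_span_insert] at hz'
    obtain ⟨c, z'', hz'', h3⟩ := hz'
    rw [Ideal.mem_span_singleton'] at hz''
    obtain ⟨d, h4⟩ := hz''
    refine ⟨a, b, c, -d, ?_⟩
    rw [h1, h2, h3, ← h4]
    ring
  choose a b c habc using hrep
  have hCC : ∀ i, (C (C (β i : k)⁻¹) : k[X][X]) * C (C (β i : k)) = 1 := fun i => by
    rw [← C_mul, ← C_mul, inv_mul_cancel₀ (hβk i), C_1, C_1]
  have h := viol_fac_ideal k F hFi (fun i j hij => ?_) m hm (fun i => by rw [hnat]; exact hdeg i) e he G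
    hG μ (fun i => C (C (β i : k)⁻¹) * H i) (fun i => C (C (β i : k)⁻¹) * a i) b
    (fun i => C (C (β i : k)) * c i) (fun i => ?_) (fun i => ?_) A'
    (SFD.discLow k m A' hA') A B (by
      simp only [hnat]
      exact hA)
  · exact h
  · rw [(hFi i).coprime_iff_not_dvd]
    intro hdvd
    have h1 : Associated ((F i).map (algebraMap (𝓞 k) k)) ((F j).map (algebraMap (𝓞 k) k)) :=
      (hFi i).associated_of_dvd (hFi j) hdvd
    exact hass i j hij ((hassF i).trans (h1.trans (hassF j).symm))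
  · rw [hF i, C_mul]
    have e1 : μ i ^ e i - C (C (β i : k)) * C (f i) * (C (C (β i : k)⁻¹) * H i) =
        μ i ^ e i - (C (C (β i : k)⁻¹) * C (C (β i : k))) * (C (f i) * H i) := by ring
    rw [e1, hCC, one_mul]
    exact hμ i
  · rw [hF i, C_mul]
    have e1 : C (C (β i : k)⁻¹) * a i * (C (C (β i : k)) * C (f i)) + b i * μ i +
        C (C (β i : k)) * c i * (C (C (β i : k)⁻¹) * H i) - 1 =
        (C (C (β i : k)⁻¹) * C (C (β i : k))) * (a i * C (f i)) + b i * μ i +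
        (C (C (β i : k)⁻¹) * C (C (β i : k))) * (c i * H i) - 1 := by ring
    rw [e1, hCC, one_mul, one_mul]
    exact habc i

/-- **The height inequality for almost all points.** -/
theorem q1_all (k : Type) [Field k] [NumberField k] {t : ℕ} (p : Fin t → ℕ)
    [∀ t, Fact (p t).Prime] (hp : Function.Injective p) (g : k[X]) (hg : Squarefree g) (q : ℕ)
    (hq : q = g.natDegree ∨ q = g.natDegree + 1) {r : ℕ} (f : Fin r → k[X])
    (hirr : ∀ i, Irreducible (f i)) (hass : ∀ i j, i ≠ j → ¬ Associated (f i) (f j)) (m : ℕ)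
    (hm : 1 ≤ m) (hdeg : ∀ i, (f i).natDegree ≤ 2 * m + 1 ∨ (m = 1 ∧ (f i).natDegree ≤ 4))
    (e : Fin r → ℕ) (he : ∀ i, 1 ≤ e i)
    (G : k[X][X]) (hG : G.Monic) (μ H : Fin r → k[X][X])
    (hμ : ∀ i, G ∣ μ i ^ e i - C (f i) * H i)
    (hone : ∀ i, Ideal.span {C (f i), μ i, H i, G} = ⊤)
    (A' : ℝ)
    (hA' : A' = 0 ∨ (0 < A' ∧ A' * HD.ex (finrank ℚ k) m < m - 1) ∨ (m = 2 ∧ A' < 2)) (A ε : ℝ)
    (hA : A - ε < ∑ i, (1 - 1 / (e i : ℝ)) * ((f i).natDegree : ℝ) + A') :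
    ∃ C δ : ℝ, 0 < δ ∧ ∀ T : ℝ, 0 ≤ T →
      {P ∈ Pts k G m T | aeval P.1 g ≠ 0 ∧ HD.logDiscr P + ε * AA.height P.1 <
          AA.proximity p g q P.1 + A * AA.height P.1}.Finite ∧
      ({P ∈ Pts k G m T | aeval P.1 g ≠ 0 ∧ HD.logDiscr P + ε * AA.height P.1 <
          AA.proximity p g q P.1 + A * AA.height P.1}.ncard : ℝ) ≤
        C * Real.exp ((m + 1 - δ) * (finrank ℚ k * m) * T) := by
  classical
  set d := finrank ℚ k with hd
  set M : ℝ := ∑ i, (1 - 1 / (e i : ℝ)) * ((f i).natDegree : ℝ) with hM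
  set gap : ℝ := M + A' - (A - ε) with hgap
  have hgap0 : 0 < gap := by rw [hgap]; linarith
  set α : ℝ := min 1 (gap / 2) with hα
  have hα0 : 0 < α := lt_min one_pos (half_pos hgap0)
  have hα1 : α ≤ 1 := min_le_left _ _
  have hαg : α ≤ gap / 2 := min_le_right _ _
  obtain ⟨C₁, δ₁, hδ₁, h₁⟩ := viol_all k f hirr hass m hm hdeg e he G hG μ H hμ hone A' hA'
    (A - ε + α) 0 (by rw [hgap] at hαg; linarith)
  obtain ⟨C₂, h₂⟩ := TW.near_all_one k p hp g hg q hq m hm α (α / 2) hα0.le (by linarith)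
    (half_pos hα0)
  refine ⟨|C₁| + |C₂| * G.natDegree, min δ₁ (α / 2), lt_min hδ₁ (half_pos hα0), fun T hT => ?_⟩
  obtain ⟨f1, c1⟩ := h₁ T hT
  set B : ℝ := Real.exp (d * m * T) with hB
  have hB1 : 1 ≤ B := Real.one_le_exp (by positivity)
  have hB0 : 0 < B := lt_of_lt_of_le one_pos hB1
  obtain ⟨f2, c2⟩ := h₂ B hB1
  set U := {x : AlgebraicClosure k | finrank k (IntermediateField.adjoin k {x}) = m ∧
      AA.relHeight x ≤ B ∧ aeval x g ≠ 0 ∧ α * AA.height x ≤ AA.proximity p g q x} with hU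
  set V := {P ∈ Pts k G m T | aeval P.1 g ≠ 0 ∧ HD.logDiscr P + ε * AA.height P.1 <
          AA.proximity p g q P.1 + A * AA.height P.1} with hV
  set V₁ := {P ∈ Pts k G m T | HD.logDiscr P ≤ (A - ε + α) * AA.height P.1 + 0 ∨
        ¬ ∀ i, m * e i ∣ finrank k (IntermediateField.adjoin k {P.1, P.2})} with hV₁
  set V₂ := {P ∈ Pts k G m T | P.1 ∈ U} with hV₂
  obtain ⟨f3, c3⟩ := pts_fibre k G hG m T V₂ (fun P hP => hP.1) U f2 fun P hP => hP.2
  have hsub : V ⊆ V₁ ∪ V₂ := by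
    rintro P ⟨hP, hgx, hlt⟩
    by_cases hprox : α * AA.height P.1 ≤ AA.proximity p g q P.1
    · right
      refine ⟨hP, hP.2.1, ?_, hgx, hprox⟩
      rw [SFD.relHeight_eq P.1 m hP.2.1]
      exact Real.exp_le_exp.2 (mul_le_mul_of_nonneg_left hP.2.2 (by positivity))
    · left
      refine ⟨hP, Or.inl ?_⟩
      rw [not_le] at hprox
      have : (A - ε + α) * AA.height P.1 =
        A * AA.height P.1 - ε * AA.height P.1 + α * AA.height P.1 := by ring
      linarith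
  refine ⟨(f1.union f3).subset hsub, ?_⟩
  have g1 : (V.ncard : ℝ) ≤ V₁.ncard + V₂.ncard := by
    exact_mod_cast (Set.ncard_le_ncard hsub (f1.union f3)).trans (Set.ncard_union_le _ _)
  set δ : ℝ := min δ₁ (α / 2) with hδ
  have hexp : Real.exp ((m + 1 - δ) * (d * m) * T) = B ^ ((m : ℝ) + 1 - δ) := by
    rw [hB, ← Real.exp_mul]
    congr 1
    ring
  have g2 : (V₁.ncard : ℝ) ≤ |C₁| * Real.exp ((m + 1 - δ) * (d * m) * T) := by
    have e1 : Real.exp ((m + 1 - δ₁) * (d * m) * T) ≤ Real.exp ((m + 1 - δ) * (d * m) * T) := by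
      refine Real.exp_le_exp.2 ?_
      have : δ ≤ δ₁ := min_le_left _ _
      refine mul_le_mul_of_nonneg_right (mul_le_mul_of_nonneg_right (by linarith)
        (by positivity)) hT
    calc (V₁.ncard : ℝ) ≤ C₁ * Real.exp ((m + 1 - δ₁) * (d * m) * T) := c1
      _ ≤ |C₁| * Real.exp ((m + 1 - δ₁) * (d * m) * T) :=
          mul_le_mul_of_nonneg_right (le_abs_self _) (Real.exp_pos _).le
      _ ≤ _ := mul_le_mul_of_nonneg_left e1 (abs_nonneg _)
  have g3 : (U.ncard : ℝ) ≤ |C₂| * Real.exp ((m + 1 - δ) * (d * m) * T) := by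
    rw [hexp]
    have e1 : B ^ ((m : ℝ) + 1 - α + α / 2) ≤ B ^ ((m : ℝ) + 1 - δ) := by
      refine Real.rpow_le_rpow_of_exponent_le hB1 ?_
      have : δ ≤ α / 2 := min_le_right _ _
      linarith
    calc (U.ncard : ℝ) ≤ C₂ * B ^ ((m : ℝ) + 1 - α + α / 2) := c2
      _ ≤ |C₂| * B ^ ((m : ℝ) + 1 - α + α / 2) :=
          mul_le_mul_of_nonneg_right (le_abs_self _) (by positivity)
      _ ≤ _ := mul_le_mul_of_nonneg_left e1 (abs_nonneg _)
  calc (V.ncard : ℝ) ≤ V₁.ncard + V₂.ncard := g1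
    _ ≤ |C₁| * Real.exp ((m + 1 - δ) * (d * m) * T) +
        (|C₂| * Real.exp ((m + 1 - δ) * (d * m) * T)) * G.natDegree :=
        add_le_add g2 (c3.trans (mul_le_mul_of_nonneg_right g3 (Nat.cast_nonneg _)))
    _ = _ := by ring


end Pool.Agent.COV
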