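import Pool.Agent.SS.DiscB

/-!
# Values of polynomials in two variables at a point, integral outside a prime
-/

set_option autoImplicit false
set_option linter.unusedSectionVars false

open Polynomial NumberField Module

namespace Pool.Agent.COV

section

variable {k : Type} [Field k] {L : Type} [Field L] [Algebra k L] {K : Type} [Field K]
  [Algebra L K]

/-- The value of a polynomial in two variables over `k` at the point `(x, y)`. -/
noncomputable def val (x : L) (y : K) : k[X][X] →+* K :=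
  eval₂RingHom ((algebraMap L K).comp (aeval x : k[X] →ₐ[k] L).toRingHom) y

theorem val_C (x : L) (y : K) (f : k[X]) : val x y (C f) = algebraMap L K (aeval x f) := by
  unfold val
  rw [coe_eval₂RingHom, eval₂_C]
  rfl

theorem val_X (x : L) (y : K) : val x y (X : k[X][X]) = y := by
  unfold val
  rw [coe_eval₂RingHom, eval₂_X]

/-- the value as a value of a polynomial in one variable -/
theorem val_eval (x : L) (y : K) (F : k[X][X]) :
    val x y F = (F.map ((algebraMap L K).comp (aeval x : k[X] →ₐ[k] L).toRingHom)).eval y := by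
  unfold val
  rw [coe_eval₂RingHom, eval_map]

end

section

variable {L : Type} [Field L] [NumberField L] {K : Type} [Field K] [NumberField K]
  [Algebra L K]

/-- `z` is integral at the prime `q` -/
def InL (q : Ideal (𝓞 L)) (z : L) : Prop := ∃ s : 𝓞 L, s ∉ q ∧ ∃ t : 𝓞 L, (t : L) = (s : L) * z

/-- `z` is integral at the primes above `q` -/
def InK (q : Ideal (𝓞 L)) (z : K) : Prop :=
  ∃ s : 𝓞 L, s ∉ q ∧ ∃ t : 𝓞 K, (t : K) = algebraMap L K (s : L) * z

theorem InL.toK {q : Ideal (𝓞 L)} {z : L} (h : InL q z) : InK (K := K) q (algebraMap L K z) := by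
  obtain ⟨s, hs, t, ht⟩ := h
  refine ⟨s, hs, algebraMap (𝓞 L) (𝓞 K) t, ?_⟩
  rw [← map_mul, ← ht]
  rfl

theorem InL.add {q : Ideal (𝓞 L)} (hq : q.IsPrime) {z w : L} (hz : InL q z) (hw : InL q w) :
    InL q (z + w) := by
  obtain ⟨s, hs, t, ht⟩ := hz
  obtain ⟨s', hs', t', ht'⟩ := hw
  refine ⟨s * s', fun h => (hq.mem_or_mem h).elim hs hs', s' * t + s * t', ?_⟩
  have e1 : ((s' * t + s * t' : 𝓞 L) : L) = (s' : L) * (t : L) + (s : L) * (t' : L) := rfl
  have e2 : ((s * s' : 𝓞 L) : L) = (s : L) * (s' : L) := rfl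
  rw [e1, e2, ht, ht']
  ring

theorem InL.mul {q : Ideal (𝓞 L)} (hq : q.IsPrime) {z w : L} (hz : InL q z) (hw : InL q w) :
    InL q (z * w) := by
  obtain ⟨s, hs, t, ht⟩ := hz
  obtain ⟨s', hs', t', ht'⟩ := hw
  refine ⟨s * s', fun h => (hq.mem_or_mem h).elim hs hs', t * t', ?_⟩
  have e1 : ((t * t' : 𝓞 L) : L) = (t : L) * (t' : L) := rfl
  have e2 : ((s * s' : 𝓞 L) : L) = (s : L) * (s' : L) := rfl
  rw [e1, e2, ht, ht']
  ring

theorem InK.add {q : Ideal (𝓞 L)} (hq : q.IsPrime) {z w : K} (hz : InK q z) (hw : InK q w) :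
    InK q (z + w) := by
  obtain ⟨s, hs, t, ht⟩ := hz
  obtain ⟨s', hs', t', ht'⟩ := hw
  refine ⟨s * s', fun h => (hq.mem_or_mem h).elim hs hs',
    algebraMap (𝓞 L) (𝓞 K) s' * t + algebraMap (𝓞 L) (𝓞 K) s * t', ?_⟩
  have e1 : ((algebraMap (𝓞 L) (𝓞 K) s' * t + algebraMap (𝓞 L) (𝓞 K) s * t' : 𝓞 K) : K) =
      algebraMap L K (s' : L) * (t : K) + algebraMap L K (s : L) * (t' : K) := rfl
  have e2 : algebraMap L K ((s * s' : 𝓞 L) : L) =
      algebraMap L K (s : L) * algebraMap L K (s' : L) := map_mul (algebraMap L K) _ _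
  rw [e1, e2, ht, ht']
  ring

theorem InK.mul {q : Ideal (𝓞 L)} (hq : q.IsPrime) {z w : K} (hz : InK q z) (hw : InK q w) :
    InK q (z * w) := by
  obtain ⟨s, hs, t, ht⟩ := hz
  obtain ⟨s', hs', t', ht'⟩ := hw
  refine ⟨s * s', fun h => (hq.mem_or_mem h).elim hs hs', t * t', ?_⟩
  have e1 : ((t * t' : 𝓞 K) : K) = (t : K) * (t' : K) := rfl
  have e2 : algebraMap L K ((s * s' : 𝓞 L) : L) =
      algebraMap L K (s : L) * algebraMap L K (s' : L) := map_mul (algebraMap L K) _ _
  rw [e1, e2, ht, ht']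
  ring

theorem InL.one {q : Ideal (𝓞 L)} (hq : q.IsPrime) : InL q (1 : L) :=
  ⟨1, fun h => hq.ne_top ((Ideal.eq_top_iff_one _).2 h), 1, by simp⟩

theorem InK.one {q : Ideal (𝓞 L)} (hq : q.IsPrime) : InK q (1 : K) :=
  ⟨1, fun h => hq.ne_top ((Ideal.eq_top_iff_one _).2 h), 1, by simp⟩

theorem InL.pow {q : Ideal (𝓞 L)} (hq : q.IsPrime) {z : L} (hz : InL q z) (n : ℕ) :
    InL q (z ^ n) := by
  induction n with
  | zero => rw [pow_zero]; exact InL.one hq
  | succ n ih => rw [pow_succ]; exact ih.mul hq hz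

theorem InK.pow {q : Ideal (𝓞 L)} (hq : q.IsPrime) {z : K} (hz : InK q z) (n : ℕ) :
    InK q (z ^ n) := by
  induction n with
  | zero => rw [pow_zero]; exact InK.one hq
  | succ n ih => rw [pow_succ]; exact ih.mul hq hz

/-- a root of a monic polynomial with coefficients which are integral at `q` -/
theorem InK.of_root {q : Ideal (𝓞 L)} (hq : q.IsPrime) (p : L[X]) (hp : p.Monic)
    (hcoeff : ∀ i, InL q (p.coeff i)) (y : K) (hy : (p.map (algebraMap L K)).eval y = 0) :
    InK q y := by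
  classical
  have hdeg : p.natDegree ≠ 0 := by
    intro h
    have h1 := (Monic.natDegree_eq_zero hp).1 h
    rw [h1, Polynomial.map_one, eval_one] at hy
    exact one_ne_zero hy
  choose s hs t ht using hcoeff
  set S : 𝓞 L := ∏ i ∈ Finset.range (p.natDegree + 1), s i with hS
  have hSq : S ∉ q := by
    intro h
    obtain ⟨i, -, hi⟩ := (Ideal.IsPrime.prod_mem_iff (hp := hq)).1 h
    exact hs i hi
  have hSc : ∀ i, ∃ u : 𝓞 L, (u : L) = (S : L) * p.coeff i := by
    intro i
    by_cases hi : i ∈ Finset.range (p.natDegree + 1)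
    · refine ⟨(∏ j ∈ (Finset.range (p.natDegree + 1)).erase i, s j) * t i, ?_⟩
      rw [hS, ← Finset.mul_prod_erase _ _ hi]
      have e1 : (((∏ j ∈ (Finset.range (p.natDegree + 1)).erase i, s j) * t i : 𝓞 L) : L) =
          ((∏ j ∈ (Finset.range (p.natDegree + 1)).erase i, s j : 𝓞 L) : L) * (t i : L) := rfl
      have e2 : ((s i * ∏ j ∈ (Finset.range (p.natDegree + 1)).erase i, s j : 𝓞 L) : L) =
          (s i : L) * ((∏ j ∈ (Finset.range (p.natDegree + 1)).erase i, s j : 𝓞 L) : L) := rfl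
      rw [e1, e2, ht]
      ring
    · refine ⟨0, ?_⟩
      rw [coeff_eq_zero_of_natDegree_lt (by
        rw [Finset.mem_range] at hi
        omega), mul_zero]
      rfl
  set a : K := algebraMap L K (S : L) with ha
  have hint : IsIntegral ℤ (a * y) := by
    set P : K[X] := scaleRoots (p.map (algebraMap L K)) a with hP
    have hmon : P.Monic := (monic_scaleRoots_iff a).2 (hp.map _)
    refine IsIntegral.of_aeval_monic_of_isIntegral_coeff (p := P) hmon ?_ ?_ ?_
    · rw [hP, natDegree_scaleRoots, hp.natDegree_map]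
      exact hdeg
    · have h1 := scaleRoots_aeval_eq_zero (R := K) (A := K) (p := p.map (algebraMap L K)) (a := y)
        (r := a) (by rw [coe_aeval_eq_eval]; exact hy)
      rw [coe_aeval_eq_eval] at h1
      have h2 : eval (a * y) P = 0 := h1
      rw [h2]
      exact isIntegral_zero
    · intro i
      rw [hP, coeff_scaleRoots, coeff_map, hp.natDegree_map]
      rcases lt_trichotomy i p.natDegree with h | h | h
      · obtain ⟨u, hu⟩ := hSc i
        obtain ⟨j, hj⟩ : ∃ j, p.natDegree - i = j + 1 := ⟨p.natDegree - i - 1, by omega⟩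
        have e1 : algebraMap L K (p.coeff i) * a ^ (p.natDegree - i) =
            algebraMap L K (u : L) * a ^ j := by
          rw [hj, hu, map_mul, ← ha]
          ring
        rw [e1]
        have h3 : IsIntegral ℤ (algebraMap L K (u : L)) := u.isIntegral_coe.algebraMap
        have h4 : IsIntegral ℤ a := S.isIntegral_coe.algebraMap
        exact h3.mul (h4.pow j)
      · rw [h, hp.coeff_natDegree, map_one, Nat.sub_self, pow_zero, mul_one]
        exact isIntegral_one
      · rw [coeff_eq_zero_of_natDegree_lt h, map_zero, zero_mul]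
        exact isIntegral_zero
  exact ⟨S, hSq, ⟨a * y, hint⟩, rfl⟩

end

section

variable {k : Type} [Field k] [NumberField k]

/-- values of a polynomial in one variable -/
theorem exists_den1 (f : k[X]) : ∃ β : 𝓞 k, β ≠ 0 ∧ ∀ (L : Type) [Field L] [NumberField L]
    [Algebra k L] (q : Ideal (𝓞 L)) (x : L), q.IsPrime → algebraMap (𝓞 k) (𝓞 L) β ∉ q →
    InL q x → InL q (aeval x f) := by
  induction f using Polynomial.induction_on' with
  | add f g hf hg =>
    obtain ⟨β₁, h1, h1'⟩ := hf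
    obtain ⟨β₂, h2, h2'⟩ := hg
    refine ⟨β₁ * β₂, mul_ne_zero h1 h2, fun L _ _ _ q x hq hβ hx => ?_⟩
    rw [map_mul] at hβ
    rw [map_add]
    exact (h1' L q x hq (fun h => hβ (Ideal.mul_mem_right _ _ h)) hx).add hq
      (h2' L q x hq (fun h => hβ (Ideal.mul_mem_left _ _ h)) hx)
  | monomial n a =>
    obtain ⟨b, hb, c, hc⟩ : ∃ b : 𝓞 k, b ≠ 0 ∧ ∃ c : 𝓞 k, (c : k) = (b : k) * a := by
      obtain ⟨⟨c, b⟩, hcb⟩ := IsLocalization.surj (nonZeroDivisors (𝓞 k)) a
      exact ⟨b, nonZeroDivisors.coe_ne_zero b, c, by rw [mul_comm]; exact hcb.symm⟩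
    refine ⟨b, hb, fun L _ _ _ q x hq hβ hx => ?_⟩
    rw [aeval_monomial]
    refine InL.mul hq ⟨algebraMap (𝓞 k) (𝓞 L) b, hβ, algebraMap (𝓞 k) (𝓞 L) c, ?_⟩ (hx.pow hq n)
    have e1 : ((algebraMap (𝓞 k) (𝓞 L) c : 𝓞 L) : L) = algebraMap k L (c : k) := rfl
    have e2 : ((algebraMap (𝓞 k) (𝓞 L) b : 𝓞 L) : L) = algebraMap k L (b : k) := rfl
    rw [e1, e2, hc, map_mul]

/-- values of a polynomial in two variables -/
theorem exists_den (F : k[X][X]) : ∃ β : 𝓞 k, β ≠ 0 ∧ ∀ (L K : Type) [Field L] [NumberField L]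
    [Algebra k L] [Field K] [NumberField K] [Algebra L K] (q : Ideal (𝓞 L)) (x : L) (y : K),
    q.IsPrime → algebraMap (𝓞 k) (𝓞 L) β ∉ q → InL q x → InK q y → InK q (val x y F) := by
  induction F using Polynomial.induction_on' with
  | add f g hf hg =>
    obtain ⟨β₁, h1, h1'⟩ := hf
    obtain ⟨β₂, h2, h2'⟩ := hg
    refine ⟨β₁ * β₂, mul_ne_zero h1 h2, fun L K _ _ _ _ _ _ q x y hq hβ hx hy => ?_⟩
    rw [map_mul] at hβ
    rw [map_add]
    exact (h1' L K q x y hq (fun h => hβ (Ideal.mul_mem_right _ _ h)) hx hy).add hq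
      (h2' L K q x y hq (fun h => hβ (Ideal.mul_mem_left _ _ h)) hx hy)
  | monomial n a =>
    obtain ⟨β, hβ0, hβ'⟩ := exists_den1 a
    refine ⟨β, hβ0, fun L K _ _ _ _ _ _ q x y hq hβ hx hy => ?_⟩
    rw [← C_mul_X_pow_eq_monomial, map_mul, map_pow, val_C, val_X]
    exact (InL.toK (hβ' L q x hq hβ hx)).mul hq (hy.pow hq n)

end

end Pool.Agent.COV
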