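import Pool.Agent.COV.Loc

/-!
# A prime ideal which becomes a power
-/

set_option autoImplicit false
set_option linter.unusedSectionVars false

open Polynomial NumberField Module

namespace Pool.Agent.COV

variable {L : Type} [Field L] [NumberField L] {K : Type} [Field K] [NumberField K]
  [Algebra L K]

/-- A common multiplier. -/
theorem common {q : Ideal (𝓞 L)} (hq : q.IsPrime) {n : ℕ} (z : Fin n → K)
    (hz : ∀ i, InK q (z i)) : ∃ s : 𝓞 L, s ∉ q ∧ ∀ i, ∃ t : 𝓞 K,
      (t : K) = algebraMap L K (s : L) * z i := by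
  classical
  choose s hs t ht using hz
  refine ⟨∏ i, s i, fun h => ?_, fun i => ?_⟩
  · obtain ⟨i, -, hi⟩ := (Ideal.IsPrime.prod_mem_iff (hp := hq)).1 h
    exact hs i hi
  · refine ⟨algebraMap (𝓞 L) (𝓞 K) (∏ j ∈ Finset.univ.erase i, s j) * t i, ?_⟩
    have e1 : ((algebraMap (𝓞 L) (𝓞 K) (∏ j ∈ Finset.univ.erase i, s j) * t i : 𝓞 K) : K) =
        algebraMap L K ((∏ j ∈ Finset.univ.erase i, s j : 𝓞 L) : L) * (t i : K) := rfl
    have e2 : algebraMap L K ((∏ j, s j : 𝓞 L) : L) =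
        algebraMap L K (s i : L) *
          algebraMap L K ((∏ j ∈ Finset.univ.erase i, s j : 𝓞 L) : L) := by
      rw [← map_mul, ← Finset.mul_prod_erase _ _ (Finset.mem_univ i)]
      rfl
    rw [e1, e2, ht]
    ring

/-- A prime ideal whose generator is, up to a factor which is a unit above it, a power. -/
theorem pow_eq_map (e : ℕ) (q : Ideal (𝓞 L)) (hq : q.IsMaximal) (W : 𝓞 L) (hW : W ∈ q)
    (hW2 : W ∉ q ^ 2) (U η : 𝓞 K) (hU : U ^ e = algebraMap (𝓞 L) (𝓞 K) W * η)
    (hη : ∀ Q : Ideal (𝓞 K), Q.IsMaximal → q.map (algebraMap (𝓞 L) (𝓞 K)) ≤ Q → U ∈ Q → η ∉ Q) :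
    ∃ I : Ideal (𝓞 K), q.map (algebraMap (𝓞 L) (𝓞 K)) = I ^ e := by
  classical
  set J := q.map (algebraMap (𝓞 L) (𝓞 K)) with hJ
  obtain ⟨B, hB⟩ := Ideal.dvd_span_singleton.2 hW
  have hqB : ¬ B ≤ q := by
    intro h
    apply hW2
    rw [← Ideal.dvd_span_singleton, hB, pow_two]
    exact mul_dvd_mul_left _ (Ideal.dvd_iff_le.2 h)
  have hmap : Ideal.span {algebraMap (𝓞 L) (𝓞 K) W} = J * B.map (algebraMap (𝓞 L) (𝓞 K)) := by
    rw [hJ, ← Ideal.map_mul, ← hB, Ideal.map_span, Set.image_singleton]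
  have hWJ : algebraMap (𝓞 L) (𝓞 K) W ∈ J := Ideal.mem_map_of_mem _ hW
  have hcop1 : IsCoprime J (B.map (algebraMap (𝓞 L) (𝓞 K))) := by
    have h1 : IsCoprime q B := by
      rw [Ideal.isCoprime_iff_sup_eq]
      refine hq.1.2 _ (lt_of_le_of_ne le_sup_left fun h2 => hqB ?_)
      rw [h2]
      exact le_sup_right
    rw [Ideal.isCoprime_iff_sup_eq] at h1 ⊢
    rw [hJ, ← Ideal.map_sup, h1, Ideal.map_top]
  have hcop2 : IsCoprime J (Ideal.span {η}) := by
    rw [Ideal.isCoprime_iff_sup_eq]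
    by_contra hne
    obtain ⟨Q, hQ, hle⟩ := Ideal.exists_le_maximal _ hne
    have hJQ : J ≤ Q := le_sup_left.trans hle
    have hηQ : η ∈ Q := hle (Ideal.mem_sup_right (Ideal.mem_span_singleton_self η))
    have hUQ : U ∈ Q := by
      refine hQ.isPrime.mem_of_pow_mem e ?_
      rw [hU]
      exact Ideal.mul_mem_right _ _ (hJQ hWJ)
    exact hη Q hQ hJQ hUQ hηQ
  refine exists_eq_pow_of_mul_eq_pow_of_coprime (hcop1.mul_right hcop2)
    (c := Ideal.span {U}) (n := e) ?_
  rw [Ideal.span_singleton_pow, hU, ← Ideal.span_singleton_mul_span_singleton, hmap, mul_assoc]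

/-- The prime ideals at which the value of the polynomial vanishes exactly once. -/
theorem map_pow_of_rel (e : ℕ) (he : 1 ≤ e) (q : Ideal (𝓞 L)) (hq : q.IsMaximal) (f : L)
    (j W : 𝓞 L) (D : ℕ) (hj : j ∉ q) (hW : W ∈ q) (hW2 : W ∉ q ^ 2)
    (hWf : (W : L) = f * (j : L) ^ D) (μ H a b c : K)
    (hμ : InK q μ) (hH : InK q H) (ha : InK q a) (hb : InK q b) (hc : InK q c)
    (hrel : μ ^ e = algebraMap L K f * H) (hone : a * algebraMap L K f + b * μ + c * H = 1) :
    ∃ I : Ideal (𝓞 K), q.map (algebraMap (𝓞 L) (𝓞 K)) = I ^ e := by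
  have hqp : q.IsPrime := hq.isPrime
  have hf : InK (K := K) q (algebraMap L K f) :=
    InL.toK ⟨j ^ D, fun h => hj (hqp.mem_of_pow_mem _ h), W, by
      rw [hWf, mul_comm]
      rfl⟩
  obtain ⟨s, hs, hst⟩ := common hqp ![μ, H, a, b, c, algebraMap L K f] (by
    intro i
    fin_cases i
    · exact hμ
    · exact hH
    · exact ha
    · exact hb
    · exact hc
    · exact hf)
  obtain ⟨tμ, htμ⟩ := hst 0
  obtain ⟨tH, htH⟩ := hst 1
  obtain ⟨ta, hta⟩ := hst 2
  obtain ⟨tb, htb⟩ := hst 3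
  obtain ⟨tc, htc⟩ := hst 4
  obtain ⟨tf, htf⟩ := hst 5
  have htμ' : (tμ : K) = algebraMap L K (s : L) * μ := htμ
  have htH' : (tH : K) = algebraMap L K (s : L) * H := htH
  have hta' : (ta : K) = algebraMap L K (s : L) * a := hta
  have htb' : (tb : K) = algebraMap L K (s : L) * b := htb
  have htc' : (tc : K) = algebraMap L K (s : L) * c := htc
  have htf' : (tf : K) = algebraMap L K (s : L) * algebraMap L K f := htf
  set A := algebraMap (𝓞 L) (𝓞 K) with hA
  have hAc : ∀ z : 𝓞 L, ((A z : 𝓞 K) : K) = algebraMap L K (z : L) := fun z => rfl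
  refine pow_eq_map e q hq W hW hW2 (tμ * A (j ^ D)) (A (s ^ (e - 1) * (j ^ D) ^ (e - 1)) * tH)
    ?_ ?_
  · apply RingOfIntegers.ext
    have e1 : (((tμ * A (j ^ D)) ^ e : 𝓞 K) : K) =
        ((tμ : K) * algebraMap L K ((j : L) ^ D)) ^ e := rfl
    have e2 : ((A W * (A (s ^ (e - 1) * (j ^ D) ^ (e - 1)) * tH) : 𝓞 K) : K) =
        algebraMap L K (W : L) * (algebraMap L K ((s : L) ^ (e - 1) * ((j : L) ^ D) ^ (e - 1)) *
          (tH : K)) := rfl
    rw [e1, e2, htμ', htH', hWf]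
    obtain ⟨e', rfl⟩ : ∃ e', e = e' + 1 := ⟨e - 1, by omega⟩
    simp only [Nat.add_sub_cancel, map_mul, map_pow]
    have h1 : (algebraMap L K (s : L) * μ * algebraMap L K (j : L) ^ D) ^ (e' + 1) =
        (algebraMap L K (s : L)) ^ (e' + 1) * μ ^ (e' + 1) *
          (algebraMap L K (j : L) ^ D) ^ (e' + 1) := by
      rw [mul_pow, mul_pow]
    rw [h1, hrel]
    ring
  · intro Q hQ hle hUQ hηQ
    have hQp : Q.IsPrime := hQ.isPrime
    have hcomap : ∀ z : 𝓞 L, z ∉ q → A z ∉ Q := by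
      intro z hz h
      have h1 : q ≤ Q.comap A := Ideal.map_le_iff_le_comap.1 hle
      have h2 : Q.comap A ≠ ⊤ := by
        intro h3
        apply hQp.ne_top
        rw [Ideal.eq_top_iff_one]
        have : (1 : 𝓞 L) ∈ Q.comap A := by rw [h3]; trivial
        rw [Ideal.mem_comap, map_one] at this
        exact this
      have h3 : q = Q.comap A := hq.eq_of_le h2 h1
      exact hz (by rw [h3]; exact h)
    have htH : tH ∈ Q := by
      rcases hQp.mem_or_mem hηQ with h | h
      · exfalso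
        rw [map_mul, map_pow, map_pow, map_pow] at h
        rcases hQp.mem_or_mem h with h | h
        · exact hcomap s hs (hQp.mem_of_pow_mem _ h)
        · exact hcomap j hj (hQp.mem_of_pow_mem _ (hQp.mem_of_pow_mem _ h))
      · exact h
    have htμ : tμ ∈ Q := by
      rcases hQp.mem_or_mem hUQ with h | h
      · exact h
      · exfalso
        rw [map_pow] at h
        exact hcomap j hj (hQp.mem_of_pow_mem _ h)
    have htfQ : tf ∈ Q := by
      have h1 : tf * A (j ^ D) = A s * A W := by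
        apply RingOfIntegers.ext
        have e1 : ((tf * A (j ^ D) : 𝓞 K) : K) = (tf : K) * algebraMap L K ((j : L) ^ D) := rfl
        have e2 : ((A s * A W : 𝓞 K) : K) = algebraMap L K (s : L) * algebraMap L K (W : L) := rfl
        rw [e1, e2, htf', hWf, map_mul]
        ring
      have h2 : tf * A (j ^ D) ∈ Q := by
        rw [h1]
        exact Ideal.mul_mem_left _ _ (hle (Ideal.mem_map_of_mem _ hW))
      rcases hQp.mem_or_mem h2 with h | h
      · exact h
      · exfalso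
        rw [map_pow] at h
        exact hcomap j hj (hQp.mem_of_pow_mem _ h)
    have h1 : A (s ^ 2) = ta * tf + tb * tμ + tc * tH := by
      apply RingOfIntegers.ext
      have e1 : ((A (s ^ 2) : 𝓞 K) : K) = algebraMap L K ((s : L) ^ 2) := rfl
      have e2 : ((ta * tf + tb * tμ + tc * tH : 𝓞 K) : K) =
          (ta : K) * (tf : K) + (tb : K) * (tμ : K) + (tc : K) * (tH : K) := rfl
      rw [e1, e2, hta', htb', htc', htf', htμ', htH', map_pow]
      linear_combination (-(algebraMap L K (s : L)) ^ 2) * hone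
    have h2 : A (s ^ 2) ∈ Q := by
      rw [h1]
      exact Ideal.add_mem _ (Ideal.add_mem _ (Ideal.mul_mem_left _ _ htfQ)
        (Ideal.mul_mem_left _ _ htμ)) (Ideal.mul_mem_left _ _ htH)
    rw [map_pow] at h2
    exact hcomap s hs (hQp.mem_of_pow_mem _ h2)

end Pool.Agent.COV
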