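import Pool.Agent.COV.Disc
import Pool.Agent.SFD.Final

/-!
# The field of a point of a cover of the line
-/

set_option autoImplicit false

open Polynomial NumberField IntermediateField Module

namespace Pool.Agent.COV

/-- The points `P = (x, y)` of the curve `G = 0` with `[k(x) : k] = m` and of height at most
`T`. -/
def Pts (k : Type) [Field k] [NumberField k] (G : k[X][X]) (m : ℕ) (T : ℝ) :
    Set (AlgebraicClosure k × AlgebraicClosure k) :=
  {P | (G.map (mapRingHom (algebraMap k (AlgebraicClosure k)))).evalEval P.1 P.2 = 0 ∧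
    finrank k (IntermediateField.adjoin k {P.1}) = m ∧ AA.height P.1 ≤ T}

/-- the value in a field which contains the point -/
theorem evalEval_eq {k : Type} [Field k] (G : k[X][X]) (x y : AlgebraicClosure k) :
    (G.map (mapRingHom (algebraMap k (AlgebraicClosure k)))).evalEval x y =
      G.eval₂ (aeval x : k[X] →ₐ[k] AlgebraicClosure k).toRingHom y := by
  rw [← eval₂_evalRingHom, eval₂_map]
  congr 1
  apply RingHom.ext
  intro f
  change eval x (f.map (algebraMap k (AlgebraicClosure k))) = aeval x f
  rw [eval_map_algebraMap]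

variable {k : Type} [Field k] [NumberField k]

/-- The discriminant of the field of a point. -/
theorem disc_point {r : ℕ} (fs : Fin r → (𝓞 k)[X]) (hfs : ∀ i, fs i ≠ 0)
    (hco : ∀ i j, i ≠ j → IsCoprime ((fs i).map (algebraMap (𝓞 k) k))
      ((fs j).map (algebraMap (𝓞 k) k))) (e : Fin r → ℕ) (he : ∀ i, 1 ≤ e i) (G : k[X][X])
    (hG : G.Monic) (μ H a b c : Fin r → k[X][X])
    (hμ : ∀ i, G ∣ μ i ^ e i - C ((fs i).map (algebraMap (𝓞 k) k)) * H i)
    (hone : ∀ i, G ∣ a i * C ((fs i).map (algebraMap (𝓞 k) k)) + b i * μ i + c i * H i - 1) :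
    ∃ C₁ : ℝ, 0 ≤ C₁ ∧ ∀ P : AlgebraicClosure k × AlgebraicClosure k,
      (G.map (mapRingHom (algebraMap k (AlgebraicClosure k)))).evalEval P.1 P.2 = 0 →
      (∑ i, (1 - 1 / (e i : ℝ)) * Real.log (SFD.sqx (fs i) P.1)) /
        finrank ℚ (IntermediateField.adjoin k {P.1}) + AA.logDiscr P.1 ≤ HD.logDiscr P + C₁ ∧
      ∀ i, C₁ < Real.log (SFD.sqx (fs i) P.1) →
        finrank k (IntermediateField.adjoin k {P.1}) * e i ∣
          finrank k (IntermediateField.adjoin k {P.1, P.2}) := by
  classical
  obtain ⟨C₁, hC₁, hdisc⟩ := disc_ge k fs hfs hco e he G hG μ H a b c hμ hone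
  refine ⟨C₁, hC₁, fun P hP => ?_⟩
  set L := IntermediateField.adjoin k {P.1} with hL
  set ξ : L := AdjoinSimple.gen k P.1 with hξ
  set K' := IntermediateField.adjoin L {P.2} with hK'
  have hint : IsIntegral L P.2 := Algebra.IsIntegral.isIntegral P.2
  have hfd : FiniteDimensional L K' := IntermediateField.adjoin.finiteDimensional hint
  have hnf : NumberField K' := NumberField.of_module_finite L K'
  have hK0 : 0 < finrank L K' := finrank_pos
  have hL0 : 0 < finrank ℚ L := finrank_pos
  have hval : val ξ (AdjoinSimple.gen L P.2) G = 0 := by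
    apply (algebraMap K' (AlgebraicClosure k)).injective
    rw [map_zero, ← hP, evalEval_eq]
    unfold val
    rw [coe_eval₂RingHom, hom_eval₂, AdjoinSimple.algebraMap_gen]
    congr 1
    apply RingHom.ext
    intro f
    change algebraMap K' (AlgebraicClosure k) (algebraMap L K' (aeval ξ f)) = aeval P.1 f
    rw [← IsScalarTower.algebraMap_apply L K' (AlgebraicClosure k), ← aeval_algebraMap_apply]
    rfl
  obtain ⟨h1, h2⟩ := hdisc L K' ξ (AdjoinSimple.gen L P.2) hval
  have hmul : (finrank ℚ K' : ℝ) = finrank ℚ L * finrank L K' := by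
    have := finrank_mul_finrank ℚ L K'
    exact_mod_cast this.symm
  -- comparison with the field of the point
  have hle : SST.logDisc K' ≤ HD.logDiscr P := by
    have hmem : ∀ z : K', (z : AlgebraicClosure k) ∈ IntermediateField.adjoin k {P.1, P.2} := by
      intro z
      rw [← SFD.restrict_pair]
      exact z.2
    let F : K' →+* IntermediateField.adjoin k {P.1, P.2} :=
      { toFun := fun z => ⟨z, hmem z⟩
        map_one' := rfl
        map_mul' := fun _ _ => rfl
        map_zero' := rfl
        map_add' := fun _ _ => rfl }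
    let : Algebra K' (IntermediateField.adjoin k {P.1, P.2}) := F.toAlgebra
    exact HD.logDisc_le_of_algebra _ _
  have hl0 : (0 : ℝ) < finrank ℚ L := by exact_mod_cast hL0
  have hk0 : (0 : ℝ) < finrank L K' := by exact_mod_cast hK0
  have hl1 : (1 : ℝ) ≤ finrank ℚ L := by exact_mod_cast hL0
  refine ⟨?_, fun i hi => ?_⟩
  · set Sm : ℝ := ∑ i, (1 - 1 / (e i : ℝ)) * Real.log (SFD.sqx (fs i) P.1) with hSm
    have h3 : finrank L K' * Sm + finrank L K' * Real.log |(discr L : ℝ)| ≤
        Real.log |(discr K' : ℝ)| + finrank L K' * C₁ := h1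
    have e5 : AA.logDiscr P.1 = Real.log |(discr L : ℝ)| / finrank ℚ L := rfl
    have e6 : SST.logDisc K' = Real.log |(discr K' : ℝ)| / (finrank ℚ L * finrank L K') := by
      unfold SST.logDisc
      rw [hmul]
    have h4 : Sm / finrank ℚ L + Real.log |(discr L : ℝ)| / finrank ℚ L ≤
        SST.logDisc K' + C₁ / finrank ℚ L := by
      rw [e6, ← add_div, div_add_div _ _ (by positivity) hl0.ne', div_le_div_iff₀ hl0
        (by positivity)]
      have h5 := mul_le_mul_of_nonneg_right h3 (mul_nonneg hl0.le hl0.le)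
      calc (Sm + Real.log |(discr L : ℝ)|) * (finrank ℚ L * finrank L K' * finrank ℚ L) =
          (finrank L K' * Sm + finrank L K' * Real.log |(discr L : ℝ)|) *
            (finrank ℚ L * finrank ℚ L) := by ring
        _ ≤ (Real.log |(discr K' : ℝ)| + finrank L K' * C₁) * (finrank ℚ L * finrank ℚ L) := h5
        _ = _ := by ring
    have h5 : C₁ / finrank ℚ L ≤ C₁ := div_le_self hC₁ hl1
    rw [e5]
    linarith
  · have h3 := h2 i hi
    have g3 : finrank k K' = finrank k L * finrank L K' := (finrank_mul_finrank k L K').symm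
    have g4 : finrank k (IntermediateField.adjoin k {P.1, P.2}) = finrank k L * finrank L K' := by
      rw [← SFD.restrict_pair, ← g3]
      rfl
    rw [g4]
    exact mul_dvd_mul_left _ h3

end Pool.Agent.COV
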