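import Pool.Agent.COV.TowerI
import Pool.Agent.COV.Viol
import Pool.Agent.OnePt.SimpleL
import Pool.Agent.OnePt.SimpleN

/-!
# Covers of the line: almost all points have a large discriminant (simple divisors)
-/

set_option autoImplicit false

open Polynomial NumberField IntermediateField Module

namespace Pool.Agent.COV

/-- One polynomial: almost all values have a large simple divisor. -/
theorem simple_x (k : Type) [Field k] [NumberField k] (φ : (𝓞 k)[X])
    (hφ : Irreducible (φ.map (algebraMap (𝓞 k) k))) (m : ℕ) (hm : 1 ≤ m)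
    (hφm : φ.natDegree ≤ 2 * m + 1 ∨ (m = 1 ∧ φ.natDegree ≤ 4)) (κ : ℝ) (hκ : 0 < κ) :
    ∃ C δ : ℝ, 0 ≤ C ∧ 0 < δ ∧ ∀ T : ℝ, 0 ≤ T →
      {x : AlgebraicClosure k | finrank k (IntermediateField.adjoin k {x}) = m ∧
        AA.height x ≤ T ∧ aeval x (φ.map (algebraMap (𝓞 k) k)) ≠ 0 ∧
        ¬ ∃ c, OnePt.Simple (zx φ x) c ∧ finrank ℚ (IntermediateField.adjoin k {x}) *
          ((φ.natDegree - κ) * AA.height x) ≤ Real.log (Ideal.absNorm c)}.Finite ∧
      ({x : AlgebraicClosure k | finrank k (IntermediateField.adjoin k {x}) = m ∧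
        AA.height x ≤ T ∧ aeval x (φ.map (algebraMap (𝓞 k) k)) ≠ 0 ∧
        ¬ ∃ c, OnePt.Simple (zx φ x) c ∧ finrank ℚ (IntermediateField.adjoin k {x}) *
          ((φ.natDegree - κ) * AA.height x) ≤ Real.log (Ideal.absNorm c)}.ncard : ℝ) ≤
        C * Real.exp ((m + 1 - δ) * (finrank ℚ k * m) * T) := by
  rcases hφm with h | ⟨rfl, h⟩
  · obtain ⟨C, δ, hC, hδ, hg⟩ := SFD.good_x k φ hφ m hm h κ hκ
    refine ⟨C, δ, hC, hδ, fun T hT => ?_⟩
    obtain ⟨h1, h2⟩ := hg T hT
    have hsub : {x : AlgebraicClosure k | finrank k (IntermediateField.adjoin k {x}) = m ∧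
        AA.height x ≤ T ∧ aeval x (φ.map (algebraMap (𝓞 k) k)) ≠ 0 ∧
        ¬ ∃ c, OnePt.Simple (zx φ x) c ∧ finrank ℚ (IntermediateField.adjoin k {x}) *
          ((φ.natDegree - κ) * AA.height x) ≤ Real.log (Ideal.absNorm c)} ⊆
        {x : AlgebraicClosure k | finrank k (IntermediateField.adjoin k {x}) = m ∧
        AA.height x ≤ T ∧ aeval x (φ.map (algebraMap (𝓞 k) k)) ≠ 0 ∧
        Real.log (SFD.sqx φ x) < finrank ℚ (IntermediateField.adjoin k {x}) *
          ((φ.natDegree - κ) * AA.height x)} := by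
      rintro x ⟨h3, h4, h5, h6⟩
      refine ⟨h3, h4, h5, ?_⟩
      by_contra h7
      apply h6
      obtain ⟨c, hc, hcn⟩ := OnePt.simple_of_norm (zx φ x)
      refine ⟨c, hc, ?_⟩
      rw [hcn]
      exact not_lt.1 h7
    exact ⟨h1.subset hsub, (Nat.cast_le.2 (Set.ncard_le_ncard hsub h1)).trans h2⟩
  · obtain ⟨C, δ, hC, hδ, hg⟩ := OnePt.simple_one k φ hφ h κ hκ
    refine ⟨C, δ, hC, hδ, fun T hT => ?_⟩
    obtain ⟨h1, h2⟩ := hg T hT
    refine ⟨h1, h2.trans (le_of_eq ?_)⟩
    congr 2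

/-- The good points: the height is larger than `h₀`, the discriminant of `k(x)` is large and the
ideals of the values have large simple divisors. -/
def GoodI {k : Type} [Field k] [NumberField k] {r : ℕ} (fs : Fin r → (𝓞 k)[X]) (A' κ h₀ : ℝ)
    (x : AlgebraicClosure k) : Prop :=
  h₀ < AA.height x ∧ A' * AA.height x ≤ AA.logDiscr x ∧
    ∀ i, ∃ c, OnePt.Simple (zx (fs i) x) c ∧ finrank ℚ (IntermediateField.adjoin k {x}) *
      (((fs i).natDegree - κ) * AA.height x) ≤ Real.log (Ideal.absNorm c)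

/-- Almost all points are good. -/
theorem bad_x_simple (k : Type) [Field k] [NumberField k] {r : ℕ} (fs : Fin r → (𝓞 k)[X])
    (hirr : ∀ i, Irreducible ((fs i).map (algebraMap (𝓞 k) k))) (m : ℕ) (hm : 1 ≤ m)
    
    (hdeg : ∀ i, (fs i).natDegree ≤ 2 * m + 1 ∨ (m = 1 ∧ (fs i).natDegree ≤ 4)) (A' : ℝ) (hA' : SFD.DiscLow k m A') (κ h₀ : ℝ)
    (hκ : 0 < κ) (hh₀ : 0 ≤ h₀) : ∃ C δ : ℝ, 0 ≤ C ∧ 0 < δ ∧ ∀ T : ℝ, 0 ≤ T →
      {x : AlgebraicClosure k | finrank k (IntermediateField.adjoin k {x}) = m ∧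
        AA.height x ≤ T ∧ ¬ GoodI fs A' κ h₀ x}.Finite ∧
      ({x : AlgebraicClosure k | finrank k (IntermediateField.adjoin k {x}) = m ∧
        AA.height x ≤ T ∧ ¬ GoodI fs A' κ h₀ x}.ncard : ℝ) ≤
        C * Real.exp ((m + 1 - δ) * (finrank ℚ k * m) * T) := by
  classical
  set d := finrank ℚ k with hd
  choose C₁ δ₁ hC₁ hδ₁ hgood using fun i => simple_x k (fs i) (hirr i) m hm (hdeg i) κ hκ
  obtain ⟨C₂, δ₂, hC₂, hδ₂, hdisc⟩ := hA'
  set ν : ℝ := (1 + ∑ i, (δ₁ i)⁻¹)⁻¹ with hν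
  have hsum0 : 0 ≤ ∑ i, (δ₁ i)⁻¹ := Finset.sum_nonneg fun i _ => (inv_pos.2 (hδ₁ i)).le
  have hν0 : 0 < ν := by positivity
  have hν1 : ν ≤ 1 := by
    rw [hν]
    exact inv_le_one_of_one_le₀ (by linarith)
  have hνi : ∀ i, ν ≤ δ₁ i := by
    intro i
    have h1 : (δ₁ i)⁻¹ ≤ ∑ i, (δ₁ i)⁻¹ :=
      Finset.single_le_sum (f := fun i => (δ₁ i)⁻¹) (fun i _ => (inv_pos.2 (hδ₁ i)).le)
        (Finset.mem_univ i)
    rw [hν, inv_le_comm₀ (by positivity) (hδ₁ i)]
    linarith
  set δ : ℝ := min δ₂ ν with hδ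
  have hδ0 : 0 < δ := lt_min hδ₂ hν0
  have hδν : δ ≤ ν := min_le_right _ _
  have hHf := SFD.bounded_finite k m hm h₀ hh₀
  set Hs : Set (AlgebraicClosure k) := {x : AlgebraicClosure k |
      finrank k (IntermediateField.adjoin k {x}) = m ∧ AA.height x ≤ h₀} with hHs
  set Rt : Set (AlgebraicClosure k) :=
    {x | aeval x (∏ i, (fs i).map (algebraMap (𝓞 k) k)) = 0} with hRt
  have hf0 : ∏ i, (fs i).map (algebraMap (𝓞 k) k) ≠ 0 :=
    Finset.prod_ne_zero_iff.2 fun i _ => (hirr i).ne_zero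
  have hinj : Function.Injective (algebraMap k (AlgebraicClosure k)) :=
    (algebraMap k (AlgebraicClosure k)).injective
  have hRsub : Rt ⊆ (((∏ i, (fs i).map (algebraMap (𝓞 k) k)).map
      (algebraMap k (AlgebraicClosure k))).roots.toFinset : Set (AlgebraicClosure k)) := by
    intro x hx
    rw [Finset.mem_coe, Multiset.mem_toFinset, mem_roots ((Polynomial.map_ne_zero_iff hinj).2 hf0),
      IsRoot.def, eval_map_algebraMap]
    exact hx
  have hRf : Rt.Finite := (Finset.finite_toSet _).subset hRsub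
  refine ⟨Rt.ncard + Hs.ncard + C₂ + ∑ i, C₁ i, δ, by
    have : 0 ≤ ∑ i, C₁ i := Finset.sum_nonneg fun i _ => hC₁ i
    positivity, hδ0, fun T hT => ?_⟩
  set E : ℝ := Real.exp ((m + 1 - δ) * (d * m) * T) with hE
  have hm0 : (0 : ℝ) ≤ m := Nat.cast_nonneg _
  have hE1 : 1 ≤ E := by
    refine Real.one_le_exp ?_
    have : 0 ≤ (m : ℝ) + 1 - δ := by linarith
    positivity
  have hEmono : ∀ δ' : ℝ, δ ≤ δ' → Real.exp ((m + 1 - δ') * (d * m) * T) ≤ E := by
    intro δ' h
    refine Real.exp_le_exp.2 ?_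
    refine mul_le_mul_of_nonneg_right (mul_le_mul_of_nonneg_right (by linarith) (by positivity))
      hT
  obtain ⟨fD, cD⟩ := hdisc T hT
  set D : Set (AlgebraicClosure k) := {x : AlgebraicClosure k |
      finrank k (IntermediateField.adjoin k {x}) = m ∧
        AA.height x ≤ T ∧ AA.logDiscr x < A' * AA.height x} with hD
  let S : Fin r → Set (AlgebraicClosure k) := fun i =>
    {x : AlgebraicClosure k | finrank k (IntermediateField.adjoin k {x}) = m ∧
        AA.height x ≤ T ∧ aeval x ((fs i).map (algebraMap (𝓞 k) k)) ≠ 0 ∧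
        ¬ ∃ c, OnePt.Simple (zx (fs i) x) c ∧ finrank ℚ (IntermediateField.adjoin k {x}) *
          (((fs i).natDegree - κ) * AA.height x) ≤ Real.log (Ideal.absNorm c)}
  have fS : ∀ i, (S i).Finite := fun i => (hgood i T hT).1
  have cS : ∀ i ∈ (Finset.univ : Finset (Fin r)), ((S i).ncard : ℝ) ≤ C₁ i * E := fun i _ =>
    ((hgood i T hT).2).trans
      (mul_le_mul_of_nonneg_left (hEmono _ (hδν.trans (hνi i))) (hC₁ i))
  set U : Set (AlgebraicClosure k) := (Rt ∪ Hs) ∪ (D ∪ ⋃ i ∈ (Finset.univ : Finset (Fin r)), S i)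
    with hU
  have fU : U.Finite := (hRf.union hHf).union
    (fD.union (Set.Finite.biUnion Finset.univ.finite_toSet fun i _ => fS i))
  have cU : (U.ncard : ℝ) ≤ (Rt.ncard + Hs.ncard + C₂ + ∑ i, C₁ i) * E := by
    have g1 : U.ncard ≤ (Rt.ncard + Hs.ncard) + (D.ncard + ∑ i, (S i).ncard) :=
      (Set.ncard_union_le _ _).trans (add_le_add (Set.ncard_union_le _ _)
        ((Set.ncard_union_le _ _).trans
          (Nat.add_le_add_left (Finset.set_ncard_biUnion_le _ _) _)))
    have g2 : (U.ncard : ℝ) ≤ (Rt.ncard + Hs.ncard) + (D.ncard + ∑ i, ((S i).ncard : ℝ)) := by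
      exact_mod_cast g1
    have g3 : ∑ i, ((S i).ncard : ℝ) ≤ ∑ i, C₁ i * E := Finset.sum_le_sum cS
    rw [← Finset.sum_mul] at g3
    have g4 : (D.ncard : ℝ) ≤ C₂ * E :=
      cD.trans (mul_le_mul_of_nonneg_left (hEmono _ (min_le_left _ _)) hC₂)
    have g5 : (Rt.ncard : ℝ) + Hs.ncard ≤ (Rt.ncard + Hs.ncard) * E :=
      le_mul_of_one_le_right (by positivity) hE1
    calc (U.ncard : ℝ) ≤ (Rt.ncard + Hs.ncard) + (D.ncard + ∑ i, ((S i).ncard : ℝ)) := g2
      _ ≤ (Rt.ncard + Hs.ncard) * E + (C₂ * E + (∑ i, C₁ i) * E) :=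
          add_le_add g5 (add_le_add g4 g3)
      _ = _ := by ring
  have hsub : {x : AlgebraicClosure k | finrank k (IntermediateField.adjoin k {x}) = m ∧
      AA.height x ≤ T ∧ ¬ GoodI fs A' κ h₀ x} ⊆ U := by
    rintro x ⟨hx1, hx2, hx3⟩
    by_contra hcon
    simp only [hU, Set.mem_union, not_or, Set.mem_iUnion, not_exists] at hcon
    obtain ⟨⟨n1, n2⟩, n3, n4⟩ := hcon
    apply hx3
    refine ⟨?_, ?_, fun i => ?_⟩
    · by_contra g
      exact n2 ⟨hx1, not_lt.1 g⟩
    · by_contra g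
      exact n3 ⟨hx1, hx2, not_le.1 g⟩
    · by_contra g
      refine n4 i (Finset.mem_univ i) ⟨hx1, hx2, fun h => n1 ?_, g⟩
      change aeval x (∏ i, (fs i).map (algebraMap (𝓞 k) k)) = 0
      rw [map_prod]
      exact Finset.prod_eq_zero (Finset.mem_univ i) h
  exact ⟨fU.subset hsub, (Nat.cast_le.2 (Set.ncard_le_ncard hsub fU)).trans cU⟩

/-- The number of the points with a small discriminant or with a small degree. -/
theorem viol_fac_ideal (k : Type) [Field k] [NumberField k] {r : ℕ} (fs : Fin r → (𝓞 k)[X])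
    (hirr : ∀ i, Irreducible ((fs i).map (algebraMap (𝓞 k) k)))
    (hco : ∀ i j, i ≠ j → IsCoprime ((fs i).map (algebraMap (𝓞 k) k))
      ((fs j).map (algebraMap (𝓞 k) k))) (m : ℕ) (hm : 1 ≤ m)
    (hdeg : ∀ i, (fs i).natDegree ≤ 2 * m + 1 ∨ (m = 1 ∧ (fs i).natDegree ≤ 4)) (e : Fin r → ℕ)
    (he : ∀ i, 1 ≤ e i) (G : k[X][X])
    (hG : G.Monic) (μ H a b c : Fin r → k[X][X])
    (hμ : ∀ i, G ∣ μ i ^ e i - C ((fs i).map (algebraMap (𝓞 k) k)) * H i)
    (hone : ∀ i, G ∣ a i * C ((fs i).map (algebraMap (𝓞 k) k)) + b i * μ i + c i * H i - 1)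
    (A' : ℝ) (hA' : SFD.DiscLow k m A') (A B : ℝ)
    (hA : A < ∑ i, (1 - 1 / (e i : ℝ)) * ((fs i).natDegree : ℝ) + A') :
    ∃ C δ : ℝ, 0 < δ ∧ ∀ T : ℝ, 0 ≤ T →
      {P ∈ Pts k G m T | HD.logDiscr P ≤ A * AA.height P.1 + B ∨
        ¬ ∀ i, m * e i ∣ finrank k (IntermediateField.adjoin k {P.1, P.2})}.Finite ∧
      ({P ∈ Pts k G m T | HD.logDiscr P ≤ A * AA.height P.1 + B ∨
        ¬ ∀ i, m * e i ∣ finrank k (IntermediateField.adjoin k {P.1, P.2})}.ncard : ℝ) ≤
        C * Real.exp ((m + 1 - δ) * (finrank ℚ k * m) * T) := by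
  classical
  obtain ⟨C₃, hC₃, hpt⟩ := disc_point_ideal fs (fun i => by
    intro h
    exact (hirr i).ne_zero (by rw [h, Polynomial.map_zero])) hco e he G hG μ H a b c hμ hone
  have hα : ∀ i, 0 ≤ 1 - 1 / (e i : ℝ) ∧ 1 - 1 / (e i : ℝ) ≤ 1 := by
    intro i
    have h2 : (1 : ℝ) ≤ e i := by exact_mod_cast he i
    have h3 : 1 / (e i : ℝ) ≤ 1 := by
      rw [div_le_one (by linarith)]
      exact h2
    have h4 : 0 ≤ 1 / (e i : ℝ) := by positivity
    constructor <;> linarith
  set M : ℝ := ∑ i, (1 - 1 / (e i : ℝ)) * ((fs i).natDegree : ℝ) with hM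
  set gap : ℝ := M + A' - A with hgap
  have hgap0 : 0 < gap := by rw [hgap]; linarith
  set κ : ℝ := min (1 / 2) (gap / (2 * (r + 1))) with hκ
  have hκ0 : 0 < κ := lt_min (by norm_num) (by positivity)
  have hκh : κ ≤ 1 / 2 := min_le_left _ _
  have hκr : κ * r ≤ gap / 2 := by
    have h1 : κ ≤ gap / (2 * (r + 1)) := min_le_right _ _
    have h0 : (0 : ℝ) ≤ r := Nat.cast_nonneg _
    calc κ * r ≤ gap / (2 * (r + 1)) * r := mul_le_mul_of_nonneg_right h1 h0
      _ ≤ gap / 2 := by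
          rw [div_mul_eq_mul_div, div_le_div_iff₀ (by positivity) two_pos]
          nlinarith
  set h₀ : ℝ := 2 * (|B| + C₃) / gap + 2 * C₃ with hh₀
  have hh₀0 : 0 ≤ h₀ := by positivity
  obtain ⟨C, δ, hC, hδ, h⟩ := bad_x_simple k fs hirr m hm hdeg A' hA' κ h₀ hκ0 hh₀0
  refine ⟨C * G.natDegree, δ, hδ, fun T hT => ?_⟩
  obtain ⟨fU, cU⟩ := h T hT
  set U : Set (AlgebraicClosure k) := {x : AlgebraicClosure k |
    finrank k (IntermediateField.adjoin k {x}) = m ∧
        AA.height x ≤ T ∧ ¬ GoodI fs A' κ h₀ x} with hU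
  obtain ⟨fV, cV⟩ := pts_fibre k G hG m T
    {P ∈ Pts k G m T | HD.logDiscr P ≤ A * AA.height P.1 + B ∨
        ¬ ∀ i, m * e i ∣ finrank k (IntermediateField.adjoin k {P.1, P.2})}
    (fun P hP => hP.1) U fU (by
      rintro P ⟨⟨hP1, hP2, hP3⟩, hP4⟩
      refine ⟨hP2, hP3, fun hgood => ?_⟩
      obtain ⟨hh, hdx, g2'⟩ := hgood
      choose cc hcc g2 using g2'
      obtain ⟨g1, gdeg⟩ := hpt P hP1 cc hcc
      have hl0 : (0 : ℝ) < finrank ℚ (IntermediateField.adjoin k {P.1}) := by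
        have : 0 < finrank ℚ (IntermediateField.adjoin k {P.1}) := finrank_pos
        exact_mod_cast this
      have hl1 : (1 : ℝ) ≤ finrank ℚ (IntermediateField.adjoin k {P.1}) := by
        have : 0 < finrank ℚ (IntermediateField.adjoin k {P.1}) := finrank_pos
        exact_mod_cast this
      have hhn : 0 ≤ AA.height P.1 := SFD.height_nonneg _
      rcases hP4 with hP4 | hP4
      · have g3 : (finrank ℚ (IntermediateField.adjoin k {P.1}) : ℝ) *
            ((M - κ * r) * AA.height P.1) ≤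
            ∑ i, (1 - 1 / (e i : ℝ)) * Real.log (Ideal.absNorm (cc i)) := by
          have e1 : ∀ i ∈ (Finset.univ : Finset (Fin r)),
              (finrank ℚ (IntermediateField.adjoin k {P.1}) : ℝ) *
              (((1 - 1 / (e i : ℝ)) * (fs i).natDegree - κ) * AA.height P.1) ≤
              (1 - 1 / (e i : ℝ)) * Real.log (Ideal.absNorm (cc i)) := by
            intro i _
            have e2 := mul_le_mul_of_nonneg_left (g2 i) (hα i).1
            have e3 : (1 - 1 / (e i : ℝ)) * κ ≤ κ := by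
              have := mul_le_mul_of_nonneg_right (hα i).2 hκ0.le
              linarith
            have e4 : (finrank ℚ (IntermediateField.adjoin k {P.1}) : ℝ) *
              (((1 - 1 / (e i : ℝ)) * (fs i).natDegree - κ) * AA.height P.1) ≤
              (finrank ℚ (IntermediateField.adjoin k {P.1}) : ℝ) *
              (((1 - 1 / (e i : ℝ)) * (fs i).natDegree - (1 - 1 / (e i : ℝ)) * κ) *
                AA.height P.1) := by
              refine mul_le_mul_of_nonneg_left (mul_le_mul_of_nonneg_right (by linarith) hhn)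
                hl0.le
            refine e4.trans (le_trans (le_of_eq ?_) e2)
            ring
          refine le_trans (le_of_eq ?_) (Finset.sum_le_sum e1)
          rw [← Finset.mul_sum, ← Finset.sum_mul, Finset.sum_sub_distrib, Finset.sum_const,
            Finset.card_univ, Fintype.card_fin, nsmul_eq_mul, mul_comm κ]
        have g4 : (M - κ * r) * AA.height P.1 ≤
            (∑ i, (1 - 1 / (e i : ℝ)) * Real.log (Ideal.absNorm (cc i))) /
              finrank ℚ (IntermediateField.adjoin k {P.1}) := by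
          rw [le_div_iff₀ hl0, mul_comm]
          exact g3
        have g6 : κ * r * AA.height P.1 ≤ gap / 2 * AA.height P.1 :=
          mul_le_mul_of_nonneg_right hκr hhn
        have g7 : gap * AA.height P.1 = M * AA.height P.1 + A' * AA.height P.1 -
            A * AA.height P.1 := by
          rw [hgap]
          ring
        have g8 : gap / 2 * AA.height P.1 ≤ |B| + C₃ := by
          have e1 : (M - κ * r) * AA.height P.1 = M * AA.height P.1 -
            κ * r * AA.height P.1 := by ring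
          have := le_abs_self B
          linarith
        have g9 : gap / 2 * (2 * (|B| + C₃) / gap) = |B| + C₃ := by
          field_simp
        have g10 : gap / 2 * (2 * (|B| + C₃) / gap) < gap / 2 * AA.height P.1 := by
          refine mul_lt_mul_of_pos_left ?_ (by positivity)
          have : 0 ≤ 2 * C₃ := by positivity
          linarith
        linarith
      · apply hP4
        intro i
        have hdi : (1 : ℝ) ≤ (fs i).natDegree := by
          have h1 : 0 < ((fs i).map (algebraMap (𝓞 k) k)).natDegree := (hirr i).natDegree_pos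
          rw [natDegree_map_eq_of_injective RingOfIntegers.coe_injective] at h1
          exact_mod_cast h1
        have h1 : finrank ℚ (IntermediateField.adjoin k {P.1}) * C₃ <
            Real.log (Ideal.absNorm (cc i)) := by
          refine lt_of_lt_of_le ?_ (g2 i)
          refine mul_lt_mul_of_pos_left ?_ hl0
          have e1 : 2 * C₃ < AA.height P.1 := by
            have : 0 ≤ 2 * (|B| + C₃) / gap := by positivity
            linarith
          have e2 : (1 : ℝ) / 2 * AA.height P.1 ≤ ((fs i).natDegree - κ) * AA.height P.1 :=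
            mul_le_mul_of_nonneg_right (by linarith) hhn
          linarith
        have h2 := gdeg i h1
        rwa [hP2] at h2)
  refine ⟨fV, cV.trans ?_⟩
  calc (U.ncard : ℝ) * G.natDegree ≤
      (C * Real.exp ((m + 1 - δ) * (finrank ℚ k * m) * T)) * G.natDegree :=
        mul_le_mul_of_nonneg_right cU (Nat.cast_nonneg _)
    _ = _ := by ring

end Pool.Agent.COV
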